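import Mathlib

set_option autoImplicit false

namespace Pool.Agent.Helper97

/-- Minkowski form on `Fin 4 → ℝ`. -/
def B (x y : Fin 4 → ℝ) : ℝ := -(x 0 * y 0) + x 1 * y 1 + x 2 * y 2 + x 3 * y 3

/-- The upper sheet of the hyperboloid. -/
def H (x : Fin 4 → ℝ) : Prop := B x x = -1 ∧ 0 < x 0

/-- base point -/
def e : Fin 4 → ℝ := ![1, 0, 0, 0]

@[simp] lemma e0 : e 0 = 1 := rfl
@[simp] lemma e1 : e 1 = 0 := rfl
@[simp] lemma e2 : e 2 = 0 := rfl
@[simp] lemma e3 : e 3 = 0 := rfl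

lemma H_e : H e := by constructor <;> simp [B]

lemma B_comm (x y : Fin 4 → ℝ) : B x y = B y x := by unfold B; ring

lemma B_add_left (x y z : Fin 4 → ℝ) : B (x + y) z = B x z + B y z := by
  simp only [B, Pi.add_apply]; ring

lemma B_smul_left (c : ℝ) (x z : Fin 4 → ℝ) : B (c • x) z = c * B x z := by
  simp only [B, Pi.smul_apply, smul_eq_mul]; ring

lemma B_add_right (x y z : Fin 4 → ℝ) : B z (x + y) = B z x + B z y := by
  simp only [B, Pi.add_apply]; ring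

lemma B_smul_right (c : ℝ) (x z : Fin 4 → ℝ) : B z (c • x) = c * B z x := by
  simp only [B, Pi.smul_apply, smul_eq_mul]; ring

lemma B_sub_left (x y z : Fin 4 → ℝ) : B (x - y) z = B x z - B y z := by
  simp only [B, Pi.sub_apply]; ring

lemma B_sub_right (x y z : Fin 4 → ℝ) : B z (x - y) = B z x - B z y := by
  simp only [B, Pi.sub_apply]; ring

lemma B_e_left (x : Fin 4 → ℝ) : B e x = -x 0 := by simp [B]

lemma B_e_right (x : Fin 4 → ℝ) : B x e = -x 0 := by simp [B]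

lemma Q_nonneg {a : Fin 4 → ℝ} (ha : H a) (y : Fin 4 → ℝ) : 0 ≤ B y y + (B y a) ^ 2 := by
  obtain ⟨h1, h2⟩ := ha
  have key : (a 0) ^ 2 * (B y y + (B y a) ^ 2) =
      ((a 0 * y 1 - y 0 * a 1) ^ 2 + (a 0 * y 2 - y 0 * a 2) ^ 2 + (a 0 * y 3 - y 0 * a 3) ^ 2) +
      (a 1 * (a 0 * y 1 - y 0 * a 1) + a 2 * (a 0 * y 2 - y 0 * a 2) +
        a 3 * (a 0 * y 3 - y 0 * a 3)) ^ 2 := by
    unfold B at *
    grind
  have h4 : 0 ≤ (a 0) ^ 2 * (B y y + (B y a) ^ 2) := by rw [key]; positivity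
  exact nonneg_of_mul_nonneg_right h4 (by positivity)

lemma Q_cs {a : Fin 4 → ℝ} (ha : H a) (y z : Fin 4 → ℝ) :
    (B y z + B y a * B z a) ^ 2 ≤ (B y y + (B y a) ^ 2) * (B z z + (B z a) ^ 2) := by
  have h : ∀ t : ℝ, 0 ≤ (B z z + (B z a) ^ 2) * (t * t) + (2 * (B y z + B y a * B z a)) * t +
      (B y y + (B y a) ^ 2) := by
    intro t
    have := Q_nonneg ha (y + t • z)
    have e1 : B (y + t • z) (y + t • z) + (B (y + t • z) a) ^ 2 =
        (B z z + (B z a) ^ 2) * (t * t) + (2 * (B y z + B y a * B z a)) * t +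
      (B y y + (B y a) ^ 2) := by
      simp only [B_add_left, B_add_right, B_smul_left, B_smul_right]
      rw [B_comm z y]; ring
    linarith
  have := discrim_le_zero h
  unfold discrim at this
  nlinarith

lemma timelike_neg {x n : Fin 4 → ℝ} (hx : H x) (hn : B n n < 0) (hn0 : 0 < n 0) : B x n < 0 := by
  obtain ⟨h1, h2⟩ := hx
  unfold B at *
  have hcs : (x 1 * n 1 + x 2 * n 2 + x 3 * n 3) ^ 2 ≤
      (x 1 ^ 2 + x 2 ^ 2 + x 3 ^ 2) * (n 1 ^ 2 + n 2 ^ 2 + n 3 ^ 2) := by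
    nlinarith [sq_nonneg (x 1 * n 2 - x 2 * n 1), sq_nonneg (x 1 * n 3 - x 3 * n 1),
      sq_nonneg (x 2 * n 3 - x 3 * n 2)]
  have hlt : (x 1 ^ 2 + x 2 ^ 2 + x 3 ^ 2) * (n 1 ^ 2 + n 2 ^ 2 + n 3 ^ 2) < (x 0 * n 0) ^ 2 := by
    have ha : x 1 ^ 2 + x 2 ^ 2 + x 3 ^ 2 < x 0 ^ 2 := by nlinarith
    have hb : n 1 ^ 2 + n 2 ^ 2 + n 3 ^ 2 < n 0 ^ 2 := by nlinarith
    have hc : 0 ≤ n 1 ^ 2 + n 2 ^ 2 + n 3 ^ 2 := by positivity
    calc _ ≤ x 0 ^ 2 * (n 1 ^ 2 + n 2 ^ 2 + n 3 ^ 2) := by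
            apply mul_le_mul_of_nonneg_right ha.le hc
      _ < x 0 ^ 2 * n 0 ^ 2 := by
            apply mul_lt_mul_of_pos_left hb (by positivity)
      _ = _ := by ring
  have h5 : (x 1 * n 1 + x 2 * n 2 + x 3 * n 3) ^ 2 < (x 0 * n 0) ^ 2 := lt_of_le_of_lt hcs hlt
  have h6 := abs_lt_of_sq_lt_sq h5 (by positivity)
  have h7 := (abs_lt.mp h6).2
  linarith

lemma B_neg_of_H {x y : Fin 4 → ℝ} (hx : H x) (hy : H y) : B x y < 0 :=
  timelike_neg hx (by rw [hy.1]; norm_num) hy.2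

lemma one_le_p {x y : Fin 4 → ℝ} (hx : H x) (hy : H y) : 1 ≤ -B x y := by
  have h1 := Q_nonneg hy x
  rw [hx.1] at h1
  have h2 := B_neg_of_H hx hy
  nlinarith

lemma H_of_neg {x y : Fin 4 → ℝ} (hx : H x) (hy : B y y = -1) (h : B x y < 0) : H y := by
  refine ⟨hy, ?_⟩
  by_contra hcon
  push Not at hcon
  have hne : y 0 ≠ 0 := by
    intro h0
    unfold B at hy
    rw [h0] at hy
    nlinarith [sq_nonneg (y 1), sq_nonneg (y 2), sq_nonneg (y 3)]
  have hlt : y 0 < 0 := lt_of_le_of_ne hcon hne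
  have h3 : B x ((-1 : ℝ) • y) < 0 := by
    apply timelike_neg hx
    · rw [B_smul_left, B_smul_right, hy]; norm_num
    · simp only [Pi.smul_apply, smul_eq_mul]; linarith
  rw [B_smul_right] at h3
  linarith

lemma p_submul {x y z : Fin 4 → ℝ} (hx : H x) (hy : H y) (hz : H z) :
    -B x z ≤ 2 * (-B x y) * (-B y z) := by
  have h1 := Q_cs hy x z
  rw [hx.1, hz.1] at h1
  have hxy := one_le_p hx hy
  have hyz := one_le_p hy hz
  rw [B_comm z y] at h1
  have h2 : (B x z + B x y * B y z) ^ 2 ≤ (B x y * B y z) ^ 2 := by nlinarith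
  have h3 : |B x z + B x y * B y z| ≤ |B x y * B y z| := sq_le_sq.mp h2
  have h4 : 0 ≤ B x y * B y z := by nlinarith
  rw [abs_of_nonneg h4] at h3
  have h5 := (abs_le.mp h3).1
  linarith

/-- crossing lemma -/
lemma crossing {x z v : Fin 4 → ℝ} (hx : H x) (hz : H z) (h1 : B x v ≤ 0) (h2 : 0 ≤ B z v) :
    ∃ q, H q ∧ B q v = 0 ∧ (-B x q) * (-B q z) ≤ -B x z := by
  have hp := one_le_p hx hz
  by_cases h0 : B x v = 0
  · exact ⟨x, hx, h0, by rw [hx.1]; linarith⟩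
  have h1' : B x v < 0 := lt_of_le_of_ne h1 h0
  set α := B z v with hα
  set β := -B x v with hβ
  have hβ0 : 0 < β := by linarith
  set P := -B x z with hP
  have hD : 0 < α ^ 2 + β ^ 2 + 2 * α * β * P := by
    have : 0 ≤ 2 * α * β * P := by positivity
    nlinarith
  set D := Real.sqrt (α ^ 2 + β ^ 2 + 2 * α * β * P) with hDdef
  have hDpos : 0 < D := Real.sqrt_pos.mpr hD
  have hDsq : D ^ 2 = α ^ 2 + β ^ 2 + 2 * α * β * P := Real.sq_sqrt hD.le
  have hBxz : B x z = -P := by rw [hP]; ring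
  have hBzx : B z x = -P := by rw [B_comm, hBxz]
  have hqq : B (D⁻¹ • (α • x + β • z)) (D⁻¹ • (α • x + β • z)) = -1 := by
    simp only [B_add_left, B_add_right, B_smul_left, B_smul_right, hx.1, hz.1, hBxz, hBzx]
    field_simp
    rw [hDsq]; ring
  have hxq : B x (D⁻¹ • (α • x + β • z)) = -(D⁻¹ * (α + β * P)) := by
    simp only [B_add_right, B_smul_right, hx.1, hBxz]; ring
  have hqz : B (D⁻¹ • (α • x + β • z)) z = -(D⁻¹ * (α * P + β)) := by
    simp only [B_add_left, B_smul_left, hz.1, hBxz]; ring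
  refine ⟨D⁻¹ • (α • x + β • z), ?_, ?_, ?_⟩
  · apply H_of_neg hx hqq
    rw [hxq]
    have : 0 < D⁻¹ * (α + β * P) := by positivity
    linarith
  · simp only [B_add_left, B_smul_left]
    rw [← hα]
    have : B x v = -β := by rw [hβ]; ring
    rw [this]; ring
  · rw [hxq, hqz]
    have : -(-(D⁻¹ * (α + β * P))) * (-(-(D⁻¹ * (α * P + β)))) =
        ((α + β * P) * (α * P + β)) / D ^ 2 := by
      field_simp
    rw [this, div_le_iff₀ (by positivity), hDsq]
    have hab : 0 ≤ α * β := by positivity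
    nlinarith [mul_nonneg hab (by nlinarith : (0:ℝ) ≤ P ^ 2 - 1)]

/-- planes at inversive distance `A`: points are at distance `≥ A`. -/
lemma plane_dist {x a v v' : Fin 4 → ℝ} {A : ℝ} (hA : 1 ≤ A) (hx : H x) (ha : H a)
    (hv : B v v = 1) (hv' : B v' v' = 1) (hvv : B v v' ≤ -A) (hxv : B x v = 0)
    (hav : B a v' = 0) : A ≤ -B x a := by
  have h1 := Q_cs hx v v'
  rw [B_comm v x, hxv, hv, hv', B_comm v' x] at h1
  have h2 := Q_cs ha x v'
  rw [B_comm v' a, hav, hx.1, hv'] at h2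
  have h3 := one_le_p hx ha
  have h4 : A ^ 2 ≤ (B v v') ^ 2 := by nlinarith
  have h5 : A ^ 2 ≤ (B x a) ^ 2 := by nlinarith
  nlinarith

/-- ping-pong: half-spaces are disjoint -/
lemma pingpong {x v v' : Fin 4 → ℝ} (hx : H x) (hv : B v v = 1) (hv' : B v' v' = 1)
    (hv0 : 0 < v 0) (hv'0 : 0 < v' 0) (hvv : B v v' < -1) (hxv : 0 ≤ B x v) : B x v' < 0 := by
  set A := -B v v' with hA
  have hBA : B v v' = -A := by rw [hA]; ring
  have hBA' : B v' v = -A := by rw [B_comm, hBA]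
  have hA1 : 1 < A := by linarith
  have h1 : B (v' + A • v) (v' + A • v) < 0 := by
    simp only [B_add_left, B_add_right, B_smul_left, B_smul_right, hv, hv', hBA, hBA']
    nlinarith
  have h2 : 0 < (v' + A • v) 0 := by
    simp only [Pi.add_apply, Pi.smul_apply, smul_eq_mul]
    positivity
  have h3 := timelike_neg hx h1 h2
  rw [B_add_right, B_smul_right] at h3
  nlinarith [mul_nonneg (by linarith : (0:ℝ) ≤ A) hxv]

/-- reflection -/
noncomputable def refl (v x : Fin 4 → ℝ) : Fin 4 → ℝ := x - (2 * B x v) • v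

lemma B_refl_refl {v : Fin 4 → ℝ} (hv : B v v = 1) (x y : Fin 4 → ℝ) :
    B (refl v x) (refl v y) = B x y := by
  simp only [refl, B_sub_left, B_sub_right, B_smul_left, B_smul_right, hv]
  rw [B_comm v y]; ring

lemma B_refl_self {v : Fin 4 → ℝ} (hv : B v v = 1) (x : Fin 4 → ℝ) :
    B (refl v x) v = - B x v := by
  simp only [refl, B_sub_left, B_smul_left, hv]; ring

lemma refl_refl {v : Fin 4 → ℝ} (hv : B v v = 1) (x : Fin 4 → ℝ) : refl v (refl v x) = x := by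
  have h := B_refl_self hv x
  unfold refl at h ⊢
  rw [h]
  ext i
  simp only [Pi.sub_apply, Pi.smul_apply, smul_eq_mul]
  ring

lemma B_refl_left {v : Fin 4 → ℝ} (hv : B v v = 1) (x y : Fin 4 → ℝ) :
    B (refl v x) y = B x (refl v y) := by
  rw [← B_refl_refl hv (refl v x) y, refl_refl hv]

lemma refl_fix {v x : Fin 4 → ℝ} (h : B x v = 0) : refl v x = x := by
  unfold refl; rw [h]; simp

lemma H_refl {v x : Fin 4 → ℝ} (hv : B v v = 1) (hx : H x) : H (refl v x) := by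
  apply H_of_neg hx
  · rw [B_refl_refl hv, hx.1]
  · unfold refl
    rw [B_sub_right, B_smul_right, hx.1]
    nlinarith [sq_nonneg (B x v)]

lemma disp_refl {v x : Fin 4 → ℝ} (hx : H x) : -B x (refl v x) = 1 + 2 * (B x v) ^ 2 := by
  unfold refl
  rw [B_sub_right, B_smul_right, hx.1]; ring

end Pool.Agent.Helper97
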