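import Mathlib
import Pool.Agent.Helper97.Lorentz

set_option autoImplicit false

namespace Pool.Agent.Helper97

def Sep (A : ℝ) (S : Set (Fin 4 → ℝ)) : Prop := ∀ v ∈ S, ∀ v' ∈ S, v ≠ v' → B v v' ≤ -A

def Cand (u : Fin 4 → ℝ) : Prop := B u u = 1 ∧ 1 / 2 ≤ u 0

lemma extend {A : ℝ} (hA : 1 < A) {S : Set (Fin 4 → ℝ)} (hS : Sep A S) (L : Set (Fin 4 → ℝ))
    (hL : ∀ u ∈ L, B u u = 1) :
    ∃ T, S ⊆ T ∧ T ⊆ S ∪ L ∧ Sep A T ∧ ∀ u ∈ L, ∃ v ∈ T, -A < B u v := by
  obtain ⟨T, hST, hT⟩ := zorn_subset_nonempty {T : Set (Fin 4 → ℝ) | T ⊆ S ∪ L ∧ Sep A T}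
    (by
      intro c hc hchain hne
      refine ⟨⋃₀ c, ⟨?_, ?_⟩, fun s hs => Set.subset_sUnion_of_mem hs⟩
      · apply Set.sUnion_subset
        intro t ht
        exact (hc ht).1
      · rintro v ⟨t, ht, hvt⟩ v' ⟨t', ht', hvt'⟩ hne'
        rcases hchain.total ht ht' with h | h
        · exact (hc ht').2 v (h hvt) v' hvt' hne'
        · exact (hc ht).2 v hvt v' (h hvt') hne')
    S ⟨Set.subset_union_left, hS⟩
  refine ⟨T, hST, hT.prop.1, hT.prop.2, ?_⟩
  intro u hu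
  by_contra hcon
  push Not at hcon
  have huT : u ∉ T := by
    intro h
    have := hcon u h
    rw [hL u hu] at this
    linarith
  have hins : insert u T ∈ {T : Set (Fin 4 → ℝ) | T ⊆ S ∪ L ∧ Sep A T} := by
    refine ⟨?_, ?_⟩
    · intro w hw
      rcases Set.mem_insert_iff.mp hw with rfl | hw
      · exact Or.inr hu
      · exact hT.prop.1 hw
    · rintro v hv v' hv' hne
      rcases Set.mem_insert_iff.mp hv with h1 | h1
      · rcases Set.mem_insert_iff.mp hv' with h2 | h2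
        · exact absurd (h1.trans h2.symm) hne
        · rw [h1]; exact hcon v' h2
      · rcases Set.mem_insert_iff.mp hv' with h2 | h2
        · rw [B_comm, h2]; exact hcon v h1
        · exact hT.prop.2 v h1 v' h2 hne
  have := hT.le_of_ge hins (Set.subset_insert u T)
  exact huT (this (Set.mem_insert u T))

theorem greedy {A : ℝ} (hA : 1 < A) {S : Set (Fin 4 → ℝ)} (hSep : Sep A S)
    (hS : ∀ v ∈ S, Cand v) (M : ℝ) (hM : ∀ v ∈ S, v 0 ≤ M) :
    ∃ V : Set (Fin 4 → ℝ), S ⊆ V ∧ Sep A V ∧ (∀ v ∈ V, Cand v) ∧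
      ∃ lam : ℝ, 0 < lam ∧ ∀ u, Cand u → ∃ v ∈ V, v 0 ≤ lam * u 0 ∧ -A < B u v := by
  let L : ℕ → Set (Fin 4 → ℝ) := fun k => {u | Cand u ∧ (2:ℝ) ^ k ≤ 2 * u 0 ∧ 2 * u 0 < 2 ^ (k + 1)}
  have hL : ∀ k, ∀ u ∈ L k, B u u = 1 := fun k u hu => hu.1.1
  have hext : ∀ (T : {T : Set (Fin 4 → ℝ) // Sep A T}) (k : ℕ), ∃ T' : {T : Set (Fin 4 → ℝ) // Sep A T},
      (T : Set (Fin 4 → ℝ)) ⊆ T' ∧ (T' : Set (Fin 4 → ℝ)) ⊆ T ∪ L k ∧
        ∀ u ∈ L k, ∃ v ∈ (T' : Set (Fin 4 → ℝ)), -A < B u v := by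
    intro T k
    obtain ⟨T', h1, h2, h3, h4⟩ := extend hA T.2 (L k) (hL k)
    exact ⟨⟨T', h3⟩, h1, h2, h4⟩
  choose F hF1 hF2 hF3 using hext
  let T : ℕ → {T : Set (Fin 4 → ℝ) // Sep A T} := fun n =>
    Nat.rec (motive := fun _ => {T : Set (Fin 4 → ℝ) // Sep A T}) ⟨S, hSep⟩ (fun k t => F t k) n
  have hT0 : (T 0 : Set (Fin 4 → ℝ)) = S := rfl
  have hTs : ∀ n, T (n + 1) = F (T n) n := fun n => rfl
  have hmono : Monotone (fun n => (T n : Set (Fin 4 → ℝ))) := by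
    apply monotone_nat_of_le_succ
    intro n
    change (T n : Set (Fin 4 → ℝ)) ⊆ T (n + 1)
    rw [hTs]
    exact hF1 _ _
  have hbound : ∀ n, ∀ v ∈ (T n : Set (Fin 4 → ℝ)), Cand v ∧ v 0 ≤ max M ((2:ℝ) ^ n) := by
    intro n
    induction n with
    | zero =>
      intro v hv
      rw [hT0] at hv
      exact ⟨hS v hv, le_trans (hM v hv) (le_max_left _ _)⟩
    | succ n ih =>
      intro v hv
      rw [hTs] at hv
      have h2n : (2:ℝ) ^ n ≤ 2 ^ (n + 1) := by
        apply pow_le_pow_right₀ (by norm_num) (by omega)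
      rcases hF2 _ _ hv with h | h
      · obtain ⟨h1, h2⟩ := ih v h
        refine ⟨h1, le_trans h2 (max_le_max le_rfl h2n)⟩
      · refine ⟨h.1, le_trans ?_ (le_max_right _ _)⟩
        have := h.2.2
        have h3 := h.1.2
        linarith
  refine ⟨⋃ n, (T n : Set (Fin 4 → ℝ)), ?_, ?_, ?_, max 2 (2 * M), ?_, ?_⟩
  · exact Set.subset_iUnion (fun n => (T n : Set (Fin 4 → ℝ))) 0
  · intro v hv v' hv' hne
    obtain ⟨n, hn⟩ := Set.mem_iUnion.mp hv
    obtain ⟨m, hm⟩ := Set.mem_iUnion.mp hv'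
    have h1 := hmono (le_max_left n m) hn
    have h2 := hmono (le_max_right n m) hm
    exact (T (max n m)).2 v h1 v' h2 hne
  · intro v hv
    obtain ⟨n, hn⟩ := Set.mem_iUnion.mp hv
    exact (hbound n v hn).1
  · exact lt_of_lt_of_le (by norm_num) (le_max_left _ _)
  · intro u hu
    have hu1 : (1:ℝ) ≤ 2 * u 0 := by have := hu.2; linarith
    obtain ⟨k, hk1, hk2⟩ := exists_nat_pow_near hu1 (by norm_num : (1:ℝ) < 2)
    have huL : u ∈ L k := ⟨hu, hk1, hk2⟩
    obtain ⟨v, hv, hv2⟩ := hF3 (T k) k u huL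
    rw [← hTs] at hv
    refine ⟨v, Set.mem_iUnion.mpr ⟨k + 1, hv⟩, ?_, hv2⟩
    have hvc := hv
    rw [hTs] at hvc
    have hu0 : 0 < u 0 := by linarith [hu.2]
    rcases hF2 _ _ hvc with h | h
    · obtain ⟨h1, h2⟩ := hbound k v h
      rcases le_max_iff.mp h2 with h3 | h3
      · have : M ≤ (2 * M) * u 0 := by
          have hM0 : 0 < M := lt_of_lt_of_le (by linarith [h1.2]) h3
          nlinarith
        calc v 0 ≤ M := h3
          _ ≤ (2 * M) * u 0 := this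
          _ ≤ max 2 (2 * M) * u 0 := by
            apply mul_le_mul_of_nonneg_right (le_max_right _ _) hu0.le
      · calc v 0 ≤ 2 ^ k := h3
          _ ≤ 2 * u 0 := hk1
          _ ≤ max 2 (2 * M) * u 0 := by
            apply mul_le_mul_of_nonneg_right (le_max_left _ _) hu0.le
    · have h3 := h.2.2
      calc v 0 ≤ 2 ^ k := by rw [pow_succ] at h3; linarith
        _ ≤ 2 * u 0 := hk1
        _ ≤ max 2 (2 * M) * u 0 := by
            apply mul_le_mul_of_nonneg_right (le_max_left _ _) hu0.le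

/-- coarse density -/
theorem coarse {A lam : ℝ} {V : Set (Fin 4 → ℝ)} (hA : 1 < A) (hlam : 0 < lam)
    (hV : ∀ v ∈ V, Cand v)
    (hg : ∀ u, Cand u → ∃ v ∈ V, v 0 ≤ lam * u 0 ∧ -A < B u v) :
    ∃ R : ℝ, ∀ y, H y → (∀ v ∈ V, B y v ≤ 1 / (2 * v 0)) → ∃ v ∈ V, |B y v| ≤ R := by
  obtain ⟨w, hwV, -, -⟩ := hg ![1 / 2, Real.sqrt 5 / 2, 0, 0] (by
    constructor
    · simp only [B, Matrix.cons_val_zero, Matrix.cons_val_one, Matrix.cons_val]
      have : Real.sqrt 5 * Real.sqrt 5 = 5 := Real.mul_self_sqrt (by norm_num)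
      nlinarith
    · simp)
  refine ⟨max (A + lam + 1) (2 * w 0 + (|w 1| + |w 2| + |w 3|)), ?_⟩
  intro y hy hyV
  obtain ⟨hy1, hy0⟩ := hy
  set r := Real.sqrt (y 1 ^ 2 + y 2 ^ 2 + y 3 ^ 2) with hr
  have hr2 : r ^ 2 = y 1 ^ 2 + y 2 ^ 2 + y 3 ^ 2 := Real.sq_sqrt (by positivity)
  have hr0 : 0 ≤ r := Real.sqrt_nonneg _
  have hyr : y 0 ^ 2 = 1 + r ^ 2 := by rw [hr2]; unfold B at hy1; linarith
  by_cases hcase : 1 / 2 ≤ r
  · have hrpos : 0 < r := by linarith
    obtain ⟨v, hvV, hv1, hv2⟩ := hg ![r, y 0 * y 1 / r, y 0 * y 2 / r, y 0 * y 3 / r] (by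
      constructor
      · simp only [B, Matrix.cons_val_zero, Matrix.cons_val_one, Matrix.cons_val]
        field_simp
        nlinarith
      · simpa using hcase)
    simp only [Matrix.cons_val_zero] at hv1
    have hvc := hV v hvV
    have hv0 : 0 < v 0 := by linarith [hvc.2]
    refine ⟨v, hvV, le_trans ?_ (le_max_left _ _)⟩
    rw [abs_le]
    constructor
    · have hdiff : B y v - B ![r, y 0 * y 1 / r, y 0 * y 2 / r, y 0 * y 3 / r] v =
          -((y 0 - r) * (v 0 + (y 1 * v 1 + y 2 * v 2 + y 3 * v 3) / r)) := by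
        simp only [B, Matrix.cons_val_zero, Matrix.cons_val_one, Matrix.cons_val]
        field_simp
        ring
      have hcs : (y 1 * v 1 + y 2 * v 2 + y 3 * v 3) / r ≤ v 0 + 1 := by
        rw [div_le_iff₀ hrpos]
        have hvv : v 1 ^ 2 + v 2 ^ 2 + v 3 ^ 2 = 1 + v 0 ^ 2 := by
          have := hvc.1; unfold B at this; linarith
        have h1 : (y 1 * v 1 + y 2 * v 2 + y 3 * v 3) ^ 2 ≤ ((v 0 + 1) * r) ^ 2 := by
          calc (y 1 * v 1 + y 2 * v 2 + y 3 * v 3) ^ 2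
              ≤ (y 1 ^ 2 + y 2 ^ 2 + y 3 ^ 2) * (v 1 ^ 2 + v 2 ^ 2 + v 3 ^ 2) := by
                nlinarith [sq_nonneg (y 1 * v 2 - y 2 * v 1), sq_nonneg (y 1 * v 3 - y 3 * v 1),
                  sq_nonneg (y 2 * v 3 - y 3 * v 2)]
            _ = r ^ 2 * (1 + v 0 ^ 2) := by rw [hr2, hvv]
            _ ≤ r ^ 2 * (v 0 + 1) ^ 2 := by
                apply mul_le_mul_of_nonneg_left _ (by positivity)
                nlinarith
            _ = ((v 0 + 1) * r) ^ 2 := by ring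
        exact (abs_le_of_sq_le_sq' h1 (by positivity)).2
      have h3 : (y 0 - r) * (y 0 + r) = 1 := by ring_nf; linarith
      have h4 : 0 < y 0 - r := by
        by_contra hc
        push Not at hc
        nlinarith
      have h5 : (y 0 - r) * (2 * r) ≤ 1 := by nlinarith
      have h6 : (y 0 - r) ≤ 1 := by nlinarith
      have h7 : (y 0 - r) * (2 * v 0) ≤ lam := by
        have : (y 0 - r) * (2 * v 0) ≤ (y 0 - r) * (2 * (lam * r)) := by
          apply mul_le_mul_of_nonneg_left _ h4.le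
          linarith
        nlinarith
      have h8 : (y 0 - r) * (v 0 + (y 1 * v 1 + y 2 * v 2 + y 3 * v 3) / r) ≤
          (y 0 - r) * (2 * v 0 + 1) := by
        apply mul_le_mul_of_nonneg_left _ h4.le
        linarith
      nlinarith
    · have h1 := hyV v hvV
      have : 1 / (2 * v 0) ≤ 1 := by
        rw [div_le_one (by positivity)]; linarith [hvc.2]
      linarith
  · push Not at hcase
    refine ⟨w, hwV, le_trans ?_ (le_max_right _ _)⟩
    have hw0 : 0 < w 0 := by linarith [(hV w hwV).2]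
    have hr1 : r ^ 2 ≤ 1 := by nlinarith
    have h1 : |y 1| ≤ 1 := by
      rw [abs_le_one_iff_mul_self_le_one]; nlinarith [sq_nonneg (y 2), sq_nonneg (y 3)]
    have h2 : |y 2| ≤ 1 := by
      rw [abs_le_one_iff_mul_self_le_one]; nlinarith [sq_nonneg (y 1), sq_nonneg (y 3)]
    have h3 : |y 3| ≤ 1 := by
      rw [abs_le_one_iff_mul_self_le_one]; nlinarith [sq_nonneg (y 1), sq_nonneg (y 2)]
    have h0 : y 0 ≤ 2 := by nlinarith
    unfold B
    calc |(-(y 0 * w 0) + y 1 * w 1 + y 2 * w 2 + y 3 * w 3)|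
        ≤ |(-(y 0 * w 0))| + |y 1 * w 1| + |y 2 * w 2| + |y 3 * w 3| := by
          refine (abs_add_le _ _).trans (add_le_add_left ?_ _)
          refine (abs_add_le _ _).trans (add_le_add_left ?_ _)
          exact abs_add_le _ _
      _ ≤ 2 * w 0 + |w 1| + |w 2| + |w 3| := by
          rw [abs_neg, abs_mul, abs_mul, abs_mul, abs_mul, abs_of_pos hy0, abs_of_pos hw0]
          gcongr
          · exact mul_le_of_le_one_left (abs_nonneg _) h1
          · exact mul_le_of_le_one_left (abs_nonneg _) h2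
          · exact mul_le_of_le_one_left (abs_nonneg _) h3
      _ = 2 * w 0 + (|w 1| + |w 2| + |w 3|) := by ring

end Pool.Agent.Helper97
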