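import Mathlib

set_option autoImplicit false

namespace Pool.Agent.Helper97

open scoped ENNReal

lemma summable_Z {s : ℝ} (hs : 1 < s) :
    Summable (fun k : ℤ => ((1 : ℝ) + (k:ℝ) ^ 2) ^ (-s / 2)) := by
  have h := Real.summable_abs_int_rpow hs
  apply Summable.of_norm_bounded_eventually h
  have : ∀ᶠ k : ℤ in Filter.cofinite, k ≠ 0 := Filter.eventually_cofinite_ne 0
  filter_upwards [this] with k hk
  rw [Real.norm_of_nonneg (by positivity)]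
  have hk' : 0 < |(k:ℝ)| := abs_pos.mpr (by exact_mod_cast hk)
  have h1 : |(k:ℝ)| ^ (-s) = (|(k:ℝ)| ^ (2:ℝ)) ^ (-s / 2) := by
    rw [← Real.rpow_mul hk'.le]; ring_nf
  rw [h1]
  apply Real.rpow_le_rpow_of_nonpos (by positivity)
  · rw [Real.rpow_two, sq_abs]; linarith
  · linarith

lemma card_fiber {ρ α : ℝ} (hρ : 0 < ρ) (hρ1 : ρ ≤ 1) (k : ℤ) :
    ((Set.encard {a : ℤ | ⌊ρ * ((a:ℝ) - α)⌋ = k} : ℕ∞) : ℝ≥0∞) ≤ ENNReal.ofReal (2 / ρ) := by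
  have hsub : {a : ℤ | ⌊ρ * ((a:ℝ) - α)⌋ = k} ⊆
      ((Finset.Ico ⌈α + k / ρ⌉ ⌈α + (k + 1) / ρ⌉ : Finset ℤ) : Set ℤ) := by
    intro a ha
    simp only [Set.mem_setOf_eq, Int.floor_eq_iff] at ha
    simp only [Finset.coe_Ico, Set.mem_Ico, Int.ceil_le, Int.lt_ceil]
    obtain ⟨h1, h2⟩ := ha
    constructor
    · have : (k:ℝ) / ρ ≤ a - α := by rw [div_le_iff₀ hρ]; linarith
      linarith
    · have : (a:ℝ) - α < (k + 1) / ρ := by rw [lt_div_iff₀ hρ]; linarith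
      linarith
  have h1 : (Set.encard {a : ℤ | ⌊ρ * ((a:ℝ) - α)⌋ = k} : ℕ∞) ≤
      ((Finset.Ico ⌈α + k / ρ⌉ ⌈α + (k + 1) / ρ⌉).card : ℕ∞) := by
    refine (Set.encard_le_encard hsub).trans ?_
    rw [Set.encard_coe_eq_coe_finsetCard]
  have h2 : (((Finset.Ico ⌈α + k / ρ⌉ ⌈α + (k + 1) / ρ⌉).card : ℕ) : ℝ) ≤ 2 / ρ := by
    rw [Int.card_Ico]
    have h3 : (⌈α + (k + 1) / ρ⌉ : ℝ) < α + (k + 1) / ρ + 1 := Int.ceil_lt_add_one _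
    have h4 : α + k / ρ ≤ (⌈α + k / ρ⌉ : ℝ) := Int.le_ceil _
    have h5 : (1:ℝ) ≤ 1 / ρ := by rw [le_div_iff₀ hρ]; linarith
    have h6 : ((k:ℝ) + 1) / ρ = k / ρ + 1 / ρ := by ring
    have h7 : (2:ℝ) / ρ = 1 / ρ + 1 / ρ := by ring
    have h8 : (((⌈α + (k + 1) / ρ⌉ - ⌈α + k / ρ⌉).toNat : ℕ) : ℝ) =
        max (⌈α + (k + 1) / ρ⌉ - ⌈α + k / ρ⌉ : ℝ) 0 := by
      have := Int.toNat_eq_max (⌈α + (k + 1) / ρ⌉ - ⌈α + k / ρ⌉)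
      have h9 : (((⌈α + (k + 1) / ρ⌉ - ⌈α + k / ρ⌉).toNat : ℤ) : ℝ) =
        ((max (⌈α + (k + 1) / ρ⌉ - ⌈α + k / ρ⌉) 0 : ℤ) : ℝ) := by rw [this]
      push_cast at h9 ⊢
      exact h9
    rw [h8]
    apply max_le
    · linarith
    · positivity
  calc ((Set.encard {a : ℤ | ⌊ρ * ((a:ℝ) - α)⌋ = k} : ℕ∞) : ℝ≥0∞)
      ≤ (((Finset.Ico ⌈α + k / ρ⌉ ⌈α + (k + 1) / ρ⌉).card : ℕ∞) : ℝ≥0∞) := by
        exact_mod_cast h1
    _ = ENNReal.ofReal ((Finset.Ico ⌈α + k / ρ⌉ ⌈α + (k + 1) / ρ⌉).card : ℝ) := by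
        simp
    _ ≤ _ := ENNReal.ofReal_le_ofReal h2

lemma sum1 {s : ℝ} (hs : 1 < s) : ∃ C : ℝ, 0 < C ∧ ∀ ρ α : ℝ, 0 < ρ → ρ ≤ 1 →
    ∑' a : ℤ, ENNReal.ofReal ((1 + ρ ^ 2 * ((a:ℝ) - α) ^ 2) ^ (-s / 2)) ≤ ENNReal.ofReal (C / ρ) := by
  set Z := ∑' k : ℤ, ((1 : ℝ) + (k:ℝ) ^ 2) ^ (-s / 2) with hZ
  have hZ0 : 0 < Z := by
    apply (summable_Z hs).tsum_pos (fun k => by positivity) 0
    positivity
  refine ⟨2 * 3 ^ (s / 2) * Z, by positivity, ?_⟩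
  intro ρ α hρ hρ1
  have hpt : ∀ a : ℤ, ENNReal.ofReal ((1 + ρ ^ 2 * ((a:ℝ) - α) ^ 2) ^ (-s / 2)) ≤
      ENNReal.ofReal (3 ^ (s / 2)) *
        ENNReal.ofReal ((1 + ((⌊ρ * ((a:ℝ) - α)⌋ : ℤ) : ℝ) ^ 2) ^ (-s / 2)) := by
    intro a
    rw [← ENNReal.ofReal_mul (by positivity)]
    apply ENNReal.ofReal_le_ofReal
    set k := ⌊ρ * ((a:ℝ) - α)⌋ with hk
    have h1 : (k:ℝ) ≤ ρ * ((a:ℝ) - α) := Int.floor_le _
    have h2 : ρ * ((a:ℝ) - α) < k + 1 := Int.lt_floor_add_one _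
    have h3 : 1 + (k:ℝ) ^ 2 ≤ 3 * (1 + ρ ^ 2 * ((a:ℝ) - α) ^ 2) := by
      set w := ρ * ((a:ℝ) - α) with hw
      have : ρ ^ 2 * ((a:ℝ) - α) ^ 2 = w ^ 2 := by rw [hw]; ring
      rw [this]
      nlinarith [sq_nonneg (w - 1), sq_nonneg (w + 1), sq_nonneg (k - w), sq_nonneg (w - (k - w))]
    have h4 : (3:ℝ) ^ (s / 2) = (3⁻¹ : ℝ) ^ (-s / 2) := by
      rw [Real.inv_rpow (by norm_num), ← Real.rpow_neg (by norm_num)]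
      congr 1; ring
    rw [h4, ← Real.mul_rpow (by positivity) (by positivity)]
    apply Real.rpow_le_rpow_of_nonpos (by positivity)
    · linarith
    · linarith
  calc ∑' a : ℤ, ENNReal.ofReal ((1 + ρ ^ 2 * ((a:ℝ) - α) ^ 2) ^ (-s / 2))
      ≤ ∑' a : ℤ, ENNReal.ofReal (3 ^ (s / 2)) *
        ENNReal.ofReal ((1 + ((⌊ρ * ((a:ℝ) - α)⌋ : ℤ) : ℝ) ^ 2) ^ (-s / 2)) :=
        ENNReal.tsum_le_tsum hpt
    _ = ENNReal.ofReal (3 ^ (s / 2)) * ∑' a : ℤ,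
        ENNReal.ofReal ((1 + ((⌊ρ * ((a:ℝ) - α)⌋ : ℤ) : ℝ) ^ 2) ^ (-s / 2)) := by
        rw [ENNReal.tsum_mul_left]
    _ = ENNReal.ofReal (3 ^ (s / 2)) * ∑' k : ℤ, ∑' a : {a : ℤ | ⌊ρ * ((a:ℝ) - α)⌋ = k},
        ENNReal.ofReal ((1 + (k : ℝ) ^ 2) ^ (-s / 2)) := by
        congr 1
        rw [← (Equiv.sigmaFiberEquiv (fun a : ℤ => ⌊ρ * ((a:ℝ) - α)⌋)).tsum_eq, ENNReal.tsum_sigma']
        apply tsum_congr
        intro k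
        apply tsum_congr
        rintro ⟨a, ha⟩
        simp only [Equiv.sigmaFiberEquiv, Equiv.coe_fn_mk]
        subst ha
        rfl
    _ ≤ ENNReal.ofReal (3 ^ (s / 2)) * ∑' k : ℤ, ENNReal.ofReal (2 / ρ) *
        ENNReal.ofReal ((1 + (k : ℝ) ^ 2) ^ (-s / 2)) := by
        gcongr with k
        rw [ENNReal.tsum_set_const]
        gcongr
        exact card_fiber hρ hρ1 k
    _ = ENNReal.ofReal (2 * 3 ^ (s / 2) * Z / ρ) := by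
        rw [ENNReal.tsum_mul_left, ← ENNReal.ofReal_tsum_of_nonneg (fun k => by positivity)
          (summable_Z hs), ← hZ, ← ENNReal.ofReal_mul (by positivity),
          ← ENNReal.ofReal_mul (by positivity)]
        congr 1; ring

end Pool.Agent.Helper97
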