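import Mathlib
import Pool.Agent.Helper97.Lorentz
import Pool.Agent.Helper97.Sum1

set_option autoImplicit false

namespace Pool.Agent.Helper97

open scoped ENNReal

noncomputable def ht (y : Fin 4 → ℝ) : ℝ := (y 0 - y 3)⁻¹
noncomputable def Xc (y : Fin 4 → ℝ) : ℝ := y 1 * ht y
noncomputable def Yc (y : Fin 4 → ℝ) : ℝ := y 2 * ht y
noncomputable def lv (y : Fin 4 → ℝ) : ℤ := Int.log 2 (ht y)
noncomputable def cell (y : Fin 4 → ℝ) : ℤ × ℤ × ℤ :=
  (lv y, ⌊Xc y / 2 ^ (lv y)⌋, ⌊Yc y / 2 ^ (lv y)⌋)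

lemma sub_pos_of_H {y : Fin 4 → ℝ} (hy : H y) : 0 < y 0 - y 3 := by
  obtain ⟨h1, h2⟩ := hy
  unfold B at h1
  by_contra hc
  push Not at hc
  nlinarith [sq_nonneg (y 1), sq_nonneg (y 2), sq_nonneg (y 3)]

lemma ht_pos {y : Fin 4 → ℝ} (hy : H y) : 0 < ht y := inv_pos.mpr (sub_pos_of_H hy)

lemma p_formula {x y : Fin 4 → ℝ} (hx : H x) (hy : H y) :
    2 * ht x * ht y * (-B x y) = (Xc x - Xc y) ^ 2 + (Yc x - Yc y) ^ 2 + ht x ^ 2 + ht y ^ 2 := by
  have hx0 := sub_pos_of_H hx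
  have hy0 := sub_pos_of_H hy
  have hx1 := hx.1
  have hy1 := hy.1
  unfold Xc Yc ht
  unfold B at *
  field_simp
  grind

lemma ht_inv_le {x : Fin 4 → ℝ} (hx : H x) : (-B x e)⁻¹ ≤ 2 * ht x := by
  have hx0 := sub_pos_of_H hx
  rw [B_e_right, neg_neg]
  unfold ht
  rw [inv_le_comm₀ hx.2 (by positivity), mul_inv, inv_inv]
  have h1 := hx.1
  have h2 : 0 ≤ x 0 + x 3 := by
    unfold B at h1
    by_contra hc
    push Not at hc
    nlinarith [sq_nonneg (x 1), sq_nonneg (x 2), sq_nonneg (x 3), hx.2]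
  linarith

lemma lv_le {y : Fin 4 → ℝ} (hy : H y) : (2:ℝ) ^ (lv y) ≤ ht y := by
  have := Int.zpow_log_le_self (b := 2) (by norm_num) (ht_pos hy)
  simpa [lv] using this

lemma lt_lv (y : Fin 4 → ℝ) : ht y < 2 * (2:ℝ) ^ (lv y) := by
  have := Int.lt_zpow_succ_log_self (b := 2) (by norm_num) (ht y)
  rw [zpow_add_one₀ (by norm_num)] at this
  unfold lv
  push_cast at this
  linarith

lemma cell_dist {q a : Fin 4 → ℝ} (hq : H q) (ha : H a) (h : cell q = cell a) :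
    -B q a ≤ 5 / 2 := by
  unfold cell at h
  simp only [Prod.mk.injEq] at h
  obtain ⟨h1, h2, h3⟩ := h
  have hq1 := lv_le hq
  have hq2 := lt_lv q
  have ha1 := lv_le ha
  have ha2 := lt_lv a
  rw [h1] at hq1 hq2 h2 h3
  set τ : ℝ := (2:ℝ) ^ (lv a) with hτ
  have hτ0 : 0 < τ := by positivity
  have e2 : |Xc q - Xc a| < τ := by
    have := Int.abs_sub_lt_one_of_floor_eq_floor h2
    rw [← sub_div, abs_div, abs_of_pos hτ0, div_lt_one hτ0] at this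
    exact this
  have e3 : |Yc q - Yc a| < τ := by
    have := Int.abs_sub_lt_one_of_floor_eq_floor h3
    rw [← sub_div, abs_div, abs_of_pos hτ0, div_lt_one hτ0] at this
    exact this
  have f2 : (Xc q - Xc a) ^ 2 ≤ τ ^ 2 := by
    apply sq_le_sq'
    · linarith [(abs_lt.mp e2).1]
    · linarith [(abs_lt.mp e2).2]
  have f3 : (Yc q - Yc a) ^ 2 ≤ τ ^ 2 := by
    apply sq_le_sq'
    · linarith [(abs_lt.mp e3).1]
    · linarith [(abs_lt.mp e3).2]
  have f4 : (ht q - ht a) ^ 2 ≤ τ ^ 2 := by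
    apply sq_le_sq' <;> linarith
  have hp := p_formula hq ha
  have hprod : τ ^ 2 ≤ ht q * ht a := by nlinarith
  have hprod0 : 0 < ht q * ht a := mul_pos (ht_pos hq) (ht_pos ha)
  by_contra hc
  push Not at hc
  have : 2 * (ht q * ht a) * (5 / 2) < 2 * (ht q * ht a) * (-B q a) := by
    apply mul_lt_mul_of_pos_left hc (by positivity)
  nlinarith

lemma geom_sum {s : ℝ} (hs : 1 < s) : ∃ G : ℝ, 0 < G ∧ ∀ t : ℝ, 0 < t →
    ∑' m : ℤ, ENNReal.ofReal ((t * 2 ^ m / (max t (2 ^ m)) ^ 2) ^ (s - 1)) ≤ ENNReal.ofReal G := by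
  set r : ℝ := (2:ℝ) ^ (-(s - 1)) with hr
  have hr0 : 0 < r := by positivity
  have hr1 : r < 1 := Real.rpow_lt_one_of_one_lt_of_neg (by norm_num) (by linarith)
  have hsum : Summable (fun m : ℤ => r ^ m.natAbs) := by
    apply Summable.of_nat_of_neg
    · simpa using summable_geometric_of_lt_one hr0.le hr1
    · simpa using summable_geometric_of_lt_one hr0.le hr1
  have hpos : 0 < ∑' m : ℤ, r ^ m.natAbs := by
    apply hsum.tsum_pos (fun k => by positivity) 0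
    positivity
  refine ⟨2 ^ (s - 1) * ∑' m : ℤ, r ^ m.natAbs, by positivity, ?_⟩
  intro t ht
  set m0 := Int.log 2 t with hm0
  have h1 : (2:ℝ) ^ m0 ≤ t := by
    have := Int.zpow_log_le_self (b := 2) (by norm_num) ht
    simpa using this
  have h2 : t < 2 * (2:ℝ) ^ m0 := by
    have := Int.lt_zpow_succ_log_self (b := 2) (by norm_num) t
    rw [zpow_add_one₀ (by norm_num)] at this
    push_cast at this
    linarith
  have hpt : ∀ m : ℤ, ENNReal.ofReal ((t * 2 ^ m / (max t (2 ^ m)) ^ 2) ^ (s - 1)) ≤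
      ENNReal.ofReal (2 ^ (s - 1)) * ENNReal.ofReal (r ^ (m - m0).natAbs) := by
    intro m
    rw [← ENNReal.ofReal_mul (by positivity)]
    apply ENNReal.ofReal_le_ofReal
    have h3 : r ^ (m - m0).natAbs = ((2:ℝ) ^ (-((m - m0).natAbs : ℝ))) ^ (s - 1) := by
      rw [hr, ← Real.rpow_natCast, ← Real.rpow_mul (by norm_num), ← Real.rpow_mul (by norm_num)]
      congr 1; ring
    rw [h3, ← Real.mul_rpow (by norm_num) (by positivity)]
    apply Real.rpow_le_rpow (by positivity) _ (by linarith)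
    have hM : 0 < max t ((2:ℝ) ^ m) := lt_max_of_lt_left ht
    rw [div_le_iff₀ (by positivity)]
    rcases le_or_gt m0 m with hle | hlt
    · have h4 : ((m - m0).natAbs : ℝ) = ((m:ℝ) - m0) := by
        have : ((m - m0).natAbs : ℤ) = m - m0 := Int.natAbs_of_nonneg (by omega)
        have h5 : (((m - m0).natAbs : ℤ) : ℝ) = ((m - m0 : ℤ) : ℝ) := by rw [this]
        push_cast at h5
        simpa using h5
      rw [h4]
      have h5 : (2:ℝ) ^ (-((m:ℝ) - m0)) = 2 ^ m0 / 2 ^ m := by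
        rw [neg_sub, Real.rpow_sub (by norm_num), Real.rpow_intCast, Real.rpow_intCast]
      rw [h5]
      have h6 : (2:ℝ) ^ m ≤ max t (2 ^ m) := le_max_right _ _
      have h7 : (0:ℝ) < 2 ^ m := by positivity
      calc t * 2 ^ m ≤ (2 * 2 ^ m0) * 2 ^ m := by
            apply mul_le_mul_of_nonneg_right h2.le h7.le
        _ = (2 * (2 ^ m0 / 2 ^ m)) * (2 ^ m) ^ 2 := by field_simp
        _ ≤ (2 * (2 ^ m0 / 2 ^ m)) * (max t (2 ^ m)) ^ 2 := by
            apply mul_le_mul_of_nonneg_left _ (by positivity)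
            exact pow_le_pow_left₀ h7.le h6 2
    · have h4 : ((m - m0).natAbs : ℝ) = ((m0:ℝ) - m) := by
        have : ((m - m0).natAbs : ℤ) = m0 - m := by omega
        have h5 : (((m - m0).natAbs : ℤ) : ℝ) = ((m0 - m : ℤ) : ℝ) := by rw [this]
        push_cast at h5
        simpa using h5
      rw [h4]
      have h5 : (2:ℝ) ^ (-((m0:ℝ) - m)) = 2 ^ m / 2 ^ m0 := by
        rw [neg_sub, Real.rpow_sub (by norm_num), Real.rpow_intCast, Real.rpow_intCast]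
      rw [h5]
      have h6 : t ≤ max t (2 ^ m) := le_max_left _ _
      have h7 : (0:ℝ) < 2 ^ m := by positivity
      have h8 : (0:ℝ) < 2 ^ m0 := by positivity
      calc t * 2 ^ m = t * 2 ^ m0 * (2 ^ m / 2 ^ m0) := by field_simp
        _ ≤ t * t * (2 ^ m / 2 ^ m0) := by gcongr
        _ ≤ (2 * (2 ^ m / 2 ^ m0)) * t ^ 2 := by
            have : 0 ≤ (2 ^ m / 2 ^ m0) * t ^ 2 := by positivity
            nlinarith
        _ ≤ (2 * (2 ^ m / 2 ^ m0)) * (max t (2 ^ m)) ^ 2 := by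
            apply mul_le_mul_of_nonneg_left _ (by positivity)
            exact pow_le_pow_left₀ ht.le h6 2
  calc ∑' m : ℤ, ENNReal.ofReal ((t * 2 ^ m / (max t (2 ^ m)) ^ 2) ^ (s - 1))
      ≤ ∑' m : ℤ, ENNReal.ofReal (2 ^ (s - 1)) * ENNReal.ofReal (r ^ (m - m0).natAbs) :=
        ENNReal.tsum_le_tsum hpt
    _ = ENNReal.ofReal (2 ^ (s - 1)) * ∑' m : ℤ, ENNReal.ofReal (r ^ (m - m0).natAbs) := by
        rw [ENNReal.tsum_mul_left]
    _ = ENNReal.ofReal (2 ^ (s - 1)) * ∑' m : ℤ, ENNReal.ofReal (r ^ m.natAbs) := by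
        congr 1
        exact (Equiv.subRight m0).tsum_eq (fun m : ℤ => ENNReal.ofReal (r ^ m.natAbs))
    _ = ENNReal.ofReal (2 ^ (s - 1) * ∑' m : ℤ, r ^ m.natAbs) := by
        rw [← ENNReal.ofReal_tsum_of_nonneg (fun k => by positivity) hsum,
          ← ENNReal.ofReal_mul (by positivity)]

lemma W_bound {Mm τ u w i : ℝ} (hτ : 0 < τ) (hM : τ ≤ Mm) (h1 : i ≤ w) (h2 : w < i + 1) :
    Mm ^ 2 + τ ^ 2 * (i - u) ^ 2 ≤ 3 * ((τ * (u - w)) ^ 2 + Mm ^ 2) := by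
  have h3 : (i - u) ^ 2 ≤ 2 * (u - w) ^ 2 + 2 := by
    have h4 : (w - i) ^ 2 ≤ 1 := by nlinarith
    nlinarith [sq_nonneg ((u - w) - (w - i))]
  have h5 : τ ^ 2 * (i - u) ^ 2 ≤ τ ^ 2 * (2 * (u - w) ^ 2 + 2) :=
    mul_le_mul_of_nonneg_left h3 (by positivity)
  have h6 : τ ^ 2 ≤ Mm ^ 2 := pow_le_pow_left₀ hτ.le hM 2
  have h7 : 0 ≤ τ ^ 2 * (u - w) ^ 2 := by positivity
  have h8 : (τ * (u - w)) ^ 2 = τ ^ 2 * (u - w) ^ 2 := by ring
  rw [h8]
  linarith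

lemma prod_bound {a b c : ℝ} (ha : 0 ≤ a) (hb : 0 ≤ b) (hc : 0 ≤ c) :
    (3 * (a + c)) * (3 * (b + c)) ≤ (3 * (a + b + c)) ^ 2 := by
  nlinarith [mul_nonneg ha hb, mul_nonneg ha hc, mul_nonneg hb hc, mul_nonneg ha ha,
          mul_nonneg hb hb]

lemma rpow_step {P D W1 W2 s : ℝ} (hs : 0 < s) (hP : 0 < P) (hD : 0 < D) (hW1 : 0 < W1)
    (hW2 : 0 < W2) (h : W1 * W2 ≤ (D * P) ^ 2) :
    P ^ (-s) ≤ D ^ s * (W1 * W2) ^ (-s / 2) := by
  have h1 : ((D * P) ^ 2) ^ (-s / 2) ≤ (W1 * W2) ^ (-s / 2) :=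
    Real.rpow_le_rpow_of_nonpos (by positivity) h (by linarith)
  have h2 : ((D * P) ^ 2) ^ (-s / 2) = D ^ (-s) * P ^ (-s) := by
    rw [← Real.rpow_natCast, ← Real.rpow_mul (by positivity),
      Real.mul_rpow hD.le hP.le]
    congr 2 <;> push_cast <;> ring
  rw [h2] at h1
  have h3 : D ^ s * (D ^ (-s) * P ^ (-s)) = P ^ (-s) := by
    rw [← mul_assoc, ← Real.rpow_add hD]
    simp
  calc P ^ (-s) = D ^ s * (D ^ (-s) * P ^ (-s)) := h3.symm
    _ ≤ _ := by gcongr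

set_option maxHeartbeats 4000000 in
theorem schur {s : ℝ} (hs : 1 < s) : ∃ C : ℝ, 0 < C ∧ ∀ x, H x → ∃ b : ℤ × ℤ × ℤ → ℝ≥0∞,
    (∀ y, H y → ENNReal.ofReal ((-B x y) ^ (-s) * ht y) ≤ b (cell y)) ∧
    ∑' c, b c ≤ ENNReal.ofReal (C * ht x) := by
  obtain ⟨C1, hC1, hsum1⟩ := sum1 hs
  obtain ⟨G, hG, hgeom⟩ := geom_sum hs
  refine ⟨2 * 12 ^ s * C1 ^ 2 * G, by positivity, ?_⟩
  intro x hx
  set t := ht x with ht_def
  have ht0 : 0 < t := ht_pos hx
  let M : ℤ → ℝ := fun m => max t (2 ^ m)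
  have hM0 : ∀ m, 0 < M m := fun m => lt_max_of_lt_left ht0
  let ρ : ℤ → ℝ := fun m => 2 ^ m / M m
  have hρ0 : ∀ m, 0 < ρ m := fun m => by have := hM0 m; positivity
  have hρ1 : ∀ m, ρ m ≤ 1 := fun m => by
    rw [div_le_one (hM0 m)]; exact le_max_right _ _
  let f : ℤ → ℝ → ℝ := fun m z => (1 + ρ m ^ 2 * z ^ 2) ^ (-s / 2)
  let K : ℤ → ℝ := fun m => 2 * 12 ^ s * (t ^ s * (2 ^ m) ^ (s + 1) * (M m) ^ (-(2 * s)))
  refine ⟨fun c => ENNReal.ofReal (K c.1) * (ENNReal.ofReal (f c.1 (c.2.1 - Xc x / 2 ^ c.1)) *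
    ENNReal.ofReal (f c.1 (c.2.2 - Yc x / 2 ^ c.1))), ?_, ?_⟩
  · intro y hy
    simp only [cell]
    set m := lv y with hm
    have hP := one_le_p hx hy
    have hP0 : 0 < -B x y := by linarith
    have hty0 := ht_pos hy
    have hty1 : (2:ℝ) ^ m ≤ ht y := lv_le hy
    have hty2 : ht y < 2 * (2:ℝ) ^ m := lt_lv y
    have hform := p_formula hx hy
    rw [← ht_def] at hform
    set τ : ℝ := (2:ℝ) ^ m with hτ
    have hτ0 : 0 < τ := by positivity
    have hMm : M m = max t τ := rfl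
    have hM0' := hM0 m
    set Mm := M m with hMmdef
    have hMt : t ≤ Mm := by rw [hMm]; exact le_max_left _ _
    have hMτ : τ ≤ Mm := by rw [hMm]; exact le_max_right _ _
    have hMsq : Mm ^ 2 ≤ t ^ 2 + ht y ^ 2 := by
      rw [hMm]
      rcases max_cases t τ with ⟨h, -⟩ | ⟨h, -⟩
      · rw [h]; nlinarith
      · rw [h]; nlinarith
    set i := ⌊Xc y / τ⌋ with hi
    set j := ⌊Yc y / τ⌋ with hj
    have hi1 : (i:ℝ) ≤ Xc y / τ := Int.floor_le _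
    have hi2 : Xc y / τ < i + 1 := Int.lt_floor_add_one _
    have hj1 : (j:ℝ) ≤ Yc y / τ := Int.floor_le _
    have hj2 : Yc y / τ < j + 1 := Int.lt_floor_add_one _
    have hW1 : Mm ^ 2 + τ ^ 2 * ((i:ℝ) - Xc x / τ) ^ 2 ≤ 3 * ((Xc x - Xc y) ^ 2 + Mm ^ 2) := by
      have h1 : (Xc x - Xc y) = τ * (Xc x / τ - Xc y / τ) := by field_simp
      rw [h1]
      exact W_bound hτ0 hMτ hi1 hi2
    have hW2 : Mm ^ 2 + τ ^ 2 * ((j:ℝ) - Yc x / τ) ^ 2 ≤ 3 * ((Yc x - Yc y) ^ 2 + Mm ^ 2) := by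
      have h1 : (Yc x - Yc y) = τ * (Yc x / τ - Yc y / τ) := by field_simp
      rw [h1]
      exact W_bound hτ0 hMτ hj1 hj2
    set W1 := Mm ^ 2 + τ ^ 2 * ((i:ℝ) - Xc x / τ) ^ 2 with hW1def
    set W2 := Mm ^ 2 + τ ^ 2 * ((j:ℝ) - Yc x / τ) ^ 2 with hW2def
    have hW10 : 0 < W1 := by positivity
    have hW20 : 0 < W2 := by positivity
    have hprod : W1 * W2 ≤ (12 * t * τ * (-B x y)) ^ 2 := by
      have h1 : W1 * W2 ≤ (3 * ((Xc x - Xc y) ^ 2 + Mm ^ 2)) * (3 * ((Yc x - Yc y) ^ 2 + Mm ^ 2)) :=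
        mul_le_mul hW1 hW2 hW20.le (by positivity)
      have h2 : (3 * ((Xc x - Xc y) ^ 2 + Mm ^ 2)) * (3 * ((Yc x - Yc y) ^ 2 + Mm ^ 2)) ≤
          (3 * ((Xc x - Xc y) ^ 2 + (Yc x - Yc y) ^ 2 + Mm ^ 2)) ^ 2 :=
        prod_bound (sq_nonneg _) (sq_nonneg _) (sq_nonneg _)
      have h3 : 3 * ((Xc x - Xc y) ^ 2 + (Yc x - Yc y) ^ 2 + Mm ^ 2) ≤ 12 * t * τ * (-B x y) := by
        have h4 : 2 * t * ht y * (-B x y) ≤ 2 * t * (2 * τ) * (-B x y) := by gcongr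
        nlinarith
      calc W1 * W2 ≤ _ := h1
        _ ≤ _ := h2
        _ ≤ _ := pow_le_pow_left₀ (by positivity) h3 2
    have hPs : (-B x y) ^ (-s) ≤ (12 * t * τ) ^ s * (W1 * W2) ^ (-s / 2) :=
      rpow_step (by linarith) hP0 (by positivity) hW10 hW20 hprod
    rw [← ENNReal.ofReal_mul (by positivity), ← ENNReal.ofReal_mul (by positivity)]
    apply ENNReal.ofReal_le_ofReal
    have hf1 : W1 ^ (-s / 2) = Mm ^ (-s) * f m ((i:ℝ) - Xc x / τ) := by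
      have : W1 = Mm ^ 2 * (1 + ρ m ^ 2 * ((i:ℝ) - Xc x / τ) ^ 2) := by
        rw [hW1def]
        change _ = Mm ^ 2 * (1 + (τ / Mm) ^ 2 * ((i:ℝ) - Xc x / τ) ^ 2)
        field_simp
      rw [this, Real.mul_rpow (by positivity) (by positivity), ← Real.rpow_natCast Mm 2,
        ← Real.rpow_mul hM0'.le]
      congr 2; push_cast; ring
    have hf2 : W2 ^ (-s / 2) = Mm ^ (-s) * f m ((j:ℝ) - Yc x / τ) := by
      have : W2 = Mm ^ 2 * (1 + ρ m ^ 2 * ((j:ℝ) - Yc x / τ) ^ 2) := by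
        rw [hW2def]
        change _ = Mm ^ 2 * (1 + (τ / Mm) ^ 2 * ((j:ℝ) - Yc x / τ) ^ 2)
        field_simp
      rw [this, Real.mul_rpow (by positivity) (by positivity), ← Real.rpow_natCast Mm 2,
        ← Real.rpow_mul hM0'.le]
      congr 2; push_cast; ring
    calc (-B x y) ^ (-s) * ht y ≤ ((12 * t * τ) ^ s * (W1 * W2) ^ (-s / 2)) * (2 * τ) := by
          apply mul_le_mul hPs hty2.le hty0.le (by positivity)
      _ = K m * (f m ((i:ℝ) - Xc x / τ) * f m ((j:ℝ) - Yc x / τ)) := by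
          rw [Real.mul_rpow hW10.le hW20.le, hf1, hf2]
          change _ = (2 * 12 ^ s * (t ^ s * τ ^ (s + 1) * Mm ^ (-(2 * s)))) * _
          rw [Real.mul_rpow (by positivity) hτ0.le, Real.mul_rpow (by norm_num) ht0.le,
            Real.rpow_add_one hτ0.ne', show -(2 * s) = -s + -s by ring, Real.rpow_add hM0']
          ring
  · rw [ENNReal.tsum_prod']
    have hm : ∀ m : ℤ, ∑' ij : ℤ × ℤ, ENNReal.ofReal (K m) *
        (ENNReal.ofReal (f m (ij.1 - Xc x / 2 ^ m)) * ENNReal.ofReal (f m (ij.2 - Yc x / 2 ^ m))) ≤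
        ENNReal.ofReal (2 * 12 ^ s * C1 ^ 2 * t) *
          ENNReal.ofReal ((t * 2 ^ m / (max t (2 ^ m)) ^ 2) ^ (s - 1)) := by
      intro m
      rw [ENNReal.tsum_mul_left, ENNReal.tsum_prod']
      have h1 : ∑' (a : ℤ) (b : ℤ), ENNReal.ofReal (f m (a - Xc x / 2 ^ m)) *
          ENNReal.ofReal (f m (b - Yc x / 2 ^ m)) ≤
          ENNReal.ofReal (C1 / ρ m) * ENNReal.ofReal (C1 / ρ m) := by
        simp_rw [ENNReal.tsum_mul_left, ENNReal.tsum_mul_right]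
        exact mul_le_mul' (hsum1 (ρ m) _ (hρ0 m) (hρ1 m)) (hsum1 (ρ m) _ (hρ0 m) (hρ1 m))
      refine (mul_le_mul_right h1 _).trans ?_
      rw [← ENNReal.ofReal_mul (by have := hρ0 m; positivity),
        ← ENNReal.ofReal_mul (by have := hM0 m; positivity), ← ENNReal.ofReal_mul (by positivity)]
      apply ENNReal.ofReal_le_ofReal
      apply le_of_eq
      have hMm := hM0 m
      change (2 * 12 ^ s * (t ^ s * (2 ^ m) ^ (s + 1) * (M m) ^ (-(2 * s)))) *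
        (C1 / (2 ^ m / M m) * (C1 / (2 ^ m / M m))) =
        2 * 12 ^ s * C1 ^ 2 * t * ((t * 2 ^ m / (M m) ^ 2) ^ (s - 1))
      have hτ0 : (0:ℝ) < 2 ^ m := by positivity
      rw [Real.div_rpow (by positivity) (by positivity), Real.mul_rpow ht0.le hτ0.le,
        Real.rpow_sub_one ht0.ne', Real.rpow_sub_one hτ0.ne', Real.rpow_add_one hτ0.ne',
        Real.rpow_neg hMm.le, ← Real.rpow_natCast (M m) 2, ← Real.rpow_mul hMm.le]
      have h5 : (M m) ^ (((2:ℕ):ℝ) * (s - 1)) = (M m) ^ (2 * s) / (M m) ^ 2 := by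
        rw [show (((2:ℕ):ℝ) * (s - 1)) = 2 * s - (2:ℕ) by push_cast; ring, Real.rpow_sub hMm,
          Real.rpow_natCast]
      rw [h5]
      field_simp
    calc ∑' (a : ℤ) (ij : ℤ × ℤ), ENNReal.ofReal (K a) *
        (ENNReal.ofReal (f a (ij.1 - Xc x / 2 ^ a)) * ENNReal.ofReal (f a (ij.2 - Yc x / 2 ^ a)))
        ≤ ∑' m : ℤ, ENNReal.ofReal (2 * 12 ^ s * C1 ^ 2 * t) *
          ENNReal.ofReal ((t * 2 ^ m / (max t (2 ^ m)) ^ 2) ^ (s - 1)) := ENNReal.tsum_le_tsum hm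
      _ ≤ ENNReal.ofReal (2 * 12 ^ s * C1 ^ 2 * t) * ENNReal.ofReal G := by
          rw [ENNReal.tsum_mul_left]
          exact mul_le_mul' le_rfl (hgeom t ht0)
      _ = ENNReal.ofReal (2 * 12 ^ s * C1 ^ 2 * G * t) := by
          rw [← ENNReal.ofReal_mul (by positivity)]
          congr 1; ring

end Pool.Agent.Helper97
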