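import Mathlib
import Pool.Agent.Helper97.Lorentz
import Pool.Agent.Helper97.Schur
import Pool.Agent.Helper97.Greedy

set_option autoImplicit false

namespace Pool.Agent.Helper97

open scoped ENNReal

/-- words of length `n` in `V` -/
def Wd (V : Set (Fin 4 → ℝ)) : ℕ → Type
  | 0 => PUnit
  | n + 1 => V × Wd V n

variable {V : Set (Fin 4 → ℝ)}

/-- action of a word on a vector -/
noncomputable def act : (n : ℕ) → Wd V n → (Fin 4 → ℝ) → (Fin 4 → ℝ)
  | 0, _, x => x
  | n + 1, w, x => refl w.1 (act n w.2 x)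

/-- admissible (reduced) words after a given letter -/
def Adm : (n : ℕ) → Option V → Wd V n → Prop
  | 0, _, _ => True
  | n + 1, v0, w => some w.1 ≠ v0 ∧ Adm n (some w.1) w.2

lemma H_act (hV : ∀ v ∈ V, Cand v) (n : ℕ) (w : Wd V n) {x : Fin 4 → ℝ} (hx : H x) :
    H (act n w x) := by
  induction n with
  | zero => exact hx
  | succ n ih => exact H_refl (hV _ w.1.2).1 (ih w.2)

lemma act_neg {A : ℝ} (hA : 1 < A) (hsep : Sep A V) (hV : ∀ v ∈ V, Cand v) (n : ℕ) :
    ∀ (v : V) (w : Wd V n), Adm n (some v) w → B (act n w e) v < 0 := by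
  induction n with
  | zero =>
    intro v w _
    change B e v < 0
    rw [B_e_left]
    linarith [(hV v v.2).2]
  | succ n ih =>
    intro v w hw
    obtain ⟨h1, h2⟩ := hw
    have h3 := ih w.1 w.2 h2
    have hw1 := hV _ w.1.2
    have hv1 := hV _ v.2
    have hne : (w.1 : Fin 4 → ℝ) ≠ v := by
      intro h
      apply h1
      rw [Subtype.ext h]
    apply pingpong (v := w.1) (H_act hV (n + 1) w H_e) hw1.1 hv1.1 (by linarith [hw1.2])
      (by linarith [hv1.2])
    · have := hsep _ w.1.2 _ v.2 hne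
      linarith
    · change 0 ≤ B (refl w.1 (act n w.2 e)) w.1
      rw [B_refl_self hw1.1]
      linarith

/-- the set of cells meeting the plane of `v` -/
def cellsOf (v : Fin 4 → ℝ) : Set (ℤ × ℤ × ℤ) := {c | ∃ q, H q ∧ B q v = 0 ∧ cell q = c}

noncomputable def rep (v : Fin 4 → ℝ) (c : cellsOf v) : Fin 4 → ℝ := c.2.choose

lemma rep_H (v : Fin 4 → ℝ) (c : cellsOf v) : H (rep v c) := c.2.choose_spec.1
lemma rep_B (v : Fin 4 → ℝ) (c : cellsOf v) : B (rep v c) v = 0 := c.2.choose_spec.2.1
lemma rep_cell (v : Fin 4 → ℝ) (c : cellsOf v) : cell (rep v c) = c := c.2.choose_spec.2.2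

/-- planes far apart do not share cells -/
lemma cells_disjoint {A : ℝ} (hA : 5 / 2 < A) (hsep : Sep A V) (hV : ∀ v ∈ V, Cand v)
    {v v' : V} {c : ℤ × ℤ × ℤ} (h : c ∈ cellsOf (v : Fin 4 → ℝ)) (h' : c ∈ cellsOf (v' : Fin 4 → ℝ)) :
    v = v' := by
  by_contra hne
  have hne' : (v : Fin 4 → ℝ) ≠ v' := fun h => hne (Subtype.ext h)
  obtain ⟨q, hq, hqv, hqc⟩ := h
  obtain ⟨q', hq', hqv', hqc'⟩ := h'
  have h1 := cell_dist hq hq' (by rw [hqc, hqc'])
  have h2 := plane_dist (by linarith) hq hq' (hV _ v.2).1 (hV _ v'.2).1 (hsep _ v.2 _ v'.2 hne')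
    hqv hqv'
  linarith

/-- main pointwise step -/
lemma term_step {s : ℝ} (hs : 0 < s) {x z v : Fin 4 → ℝ} (hv : B v v = 1) (hx : H x) (hz : H z)
    (hxv : B x v ≤ 0) (hzv : B z v ≤ 0) :
    ∃ c : cellsOf v, (-B x (refl v z)) ^ (-s) ≤
      25 ^ s * ((-B x (rep v c)) ^ (-s) * (-B (rep v c) z) ^ (-s)) := by
  have hrz := H_refl hv hz
  obtain ⟨q, hq, hqv, hcross⟩ := crossing hx hrz hxv (by rw [B_refl_self hv]; linarith)
  have hc : cell q ∈ cellsOf v := ⟨q, hq, hqv, rfl⟩
  refine ⟨⟨cell q, hc⟩, ?_⟩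
  set a := rep v ⟨cell q, hc⟩ with ha_def
  have ha : H a := rep_H _ _
  have hav : B a v = 0 := rep_B _ _
  have hac : cell a = cell q := rep_cell _ _
  have hqa : -B q a ≤ 5 / 2 := cell_dist hq ha hac.symm
  have hqz : -B q z = -B q (refl v z) := by
    rw [← B_refl_left hv, refl_fix hqv]
  have hxa : -B x a ≤ 5 * (-B x q) := by
    have h1 := p_submul hx hq ha
    have h2 := one_le_p hx hq
    have h3 := one_le_p hq ha
    nlinarith
  have haz : -B a z ≤ 5 * (-B q z) := by
    have h1 := p_submul ha hq hz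
    have h2 := one_le_p hq hz
    have h3 := one_le_p hq ha
    rw [B_comm a q] at h1
    nlinarith
  have hxa1 := one_le_p hx ha
  have haz1 := one_le_p ha hz
  have hprod : (-B x a) * (-B a z) ≤ 25 * (-B x (refl v z)) := by
    calc (-B x a) * (-B a z) ≤ (5 * (-B x q)) * (5 * (-B q z)) := by
          apply mul_le_mul hxa haz (by linarith) (by linarith [one_le_p hx hq])
      _ = 25 * ((-B x q) * (-B q (refl v z))) := by rw [hqz]; ring
      _ ≤ _ := by linarith
  have hP := one_le_p hx hrz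
  rw [← Real.mul_rpow (by linarith) (by linarith)]
  have h25 : (25:ℝ) ^ s = (25⁻¹ : ℝ) ^ (-s) := by
    rw [Real.inv_rpow (by norm_num), Real.rpow_neg (by norm_num), inv_inv]
  rw [h25, ← Real.mul_rpow (by norm_num) (by nlinarith)]
  apply Real.rpow_le_rpow_of_nonpos
  · have : 0 < (-B x a) * (-B a z) := by nlinarith
    positivity
  · linarith
  · linarith

open Classical in
/-- partition sums over admissible words -/
noncomputable def T (V : Set (Fin 4 → ℝ)) (s : ℝ) (n : ℕ) (v0 : Option V) (x : Fin 4 → ℝ) : ℝ≥0∞ :=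
  ∑' w : Wd V n, if Adm n v0 w then ENNReal.ofReal ((-B x (act n w e)) ^ (-s)) else 0

open Classical in
lemma T_succ_le {A : ℝ} (hA : 1 < A) (hsep : Sep A V) (hV : ∀ v ∈ V, Cand v) {s : ℝ} (hs : 0 < s)
    (n : ℕ) (v0 : Option V) {x : Fin 4 → ℝ} (hx : H x)
    (hxv : ∀ v : V, some v ≠ v0 → B x v ≤ 0) :
    T V s (n + 1) v0 x ≤ ∑' v1 : V, if some v1 ≠ v0 then
      ∑' c : cellsOf (v1 : Fin 4 → ℝ), ENNReal.ofReal (25 ^ s) *
        (ENNReal.ofReal ((-B x (rep v1 c)) ^ (-s)) * T V s n (some v1) (rep v1 c)) else 0 := by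
  have h1 : T V s (n + 1) v0 x = ∑' v1 : V, ∑' w : Wd V n,
      if (some v1 ≠ v0 ∧ Adm n (some v1) w) then
        ENNReal.ofReal ((-B x (refl v1 (act n w e))) ^ (-s)) else 0 := by
    unfold T
    change ∑' w : V × Wd V n, _ = _
    rw [ENNReal.tsum_prod']
    apply tsum_congr
    intro v1
    apply tsum_congr
    intro w
    exact if_congr Iff.rfl rfl rfl
  rw [h1]
  apply ENNReal.tsum_le_tsum
  intro v1
  by_cases hne : some v1 ≠ v0
  · simp only [hne, ne_eq, not_false_eq_true, true_and, if_true]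
    have h2 : ∀ c : cellsOf (v1 : Fin 4 → ℝ), ENNReal.ofReal (25 ^ s) *
        (ENNReal.ofReal ((-B x (rep v1 c)) ^ (-s)) * T V s n (some v1) (rep v1 c)) =
        ∑' w : Wd V n, ENNReal.ofReal (25 ^ s) *
        (ENNReal.ofReal ((-B x (rep v1 c)) ^ (-s)) * (if Adm n (some v1) w then
          ENNReal.ofReal ((-B (rep v1 c) (act n w e)) ^ (-s)) else 0)) := by
      intro c
      unfold T
      rw [ENNReal.tsum_mul_left, ENNReal.tsum_mul_left]
    simp_rw [h2]
    rw [ENNReal.tsum_comm]
    apply ENNReal.tsum_le_tsum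
    intro w
    split_ifs with hadm
    · have hz := H_act hV n w H_e
      obtain ⟨c, hc⟩ := term_step hs (hV _ v1.2).1 hx hz (hxv v1 hne)
        (act_neg hA hsep hV n v1 w hadm).le
      refine le_trans ?_ (ENNReal.le_tsum c)
      have := one_le_p hx (rep_H _ c)
      have := one_le_p (rep_H _ c) hz
      rw [← ENNReal.ofReal_mul (by positivity), ← ENNReal.ofReal_mul (by positivity)]
      exact ENNReal.ofReal_le_ofReal hc
    · exact zero_le
  · simp only [hne, false_and, if_false, tsum_zero, le_refl]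

/-- Summing a cell-bounded quantity over all planes. -/
lemma sum_cells {A : ℝ} (hA : 5 / 2 < A) (hsep : Sep A V) (hV : ∀ v ∈ V, Cand v)
    (b : ℤ × ℤ × ℤ → ℝ≥0∞) :
    ∑' v1 : V, ∑' c : cellsOf (v1 : Fin 4 → ℝ), b c ≤ ∑' c, b c := by
  rw [← ENNReal.tsum_sigma' (fun p : (Σ v1 : V, cellsOf (v1 : Fin 4 → ℝ)) => b p.2)]
  apply ENNReal.tsum_comp_le_tsum_of_injective (f := fun p : (Σ v1 : V, cellsOf (v1 : Fin 4 → ℝ)) =>
    (p.2 : ℤ × ℤ × ℤ))
  rintro ⟨v, c⟩ ⟨v', c'⟩ h
  simp only at h
  have hv : v = v' := cells_disjoint hA hsep hV c.2 (h ▸ c'.2)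
  subst hv
  have : c = c' := Subtype.ext h
  subst this
  rfl

open Classical in
theorem T_bound {s s' : ℝ} (hs' : 1 < s') (hss' : s' < s) :
    ∃ A0 : ℝ, 5 / 2 < A0 ∧ ∀ A, A0 ≤ A → ∀ V : Set (Fin 4 → ℝ), Sep A V → (∀ v ∈ V, Cand v) →
      ∑' n, T V s n none e < ⊤ := by
  obtain ⟨C, hC, hschur⟩ := schur hs'
  -- choose A0 with 25^s * A0^{-(s-s')} * C ≤ 1/2
  have hlim : Filter.Tendsto (fun A : ℝ => 25 ^ s * A ^ (-(s - s')) * C) Filter.atTop (nhds 0) := by
    have h1 : Filter.Tendsto (fun A : ℝ => A ^ (-(s - s'))) Filter.atTop (nhds 0) :=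
      tendsto_rpow_neg_atTop (by linarith)
    have h2 := (h1.const_mul (25 ^ s)).mul_const C
    simpa using h2
  obtain ⟨A1, hA1⟩ := Filter.eventually_atTop.mp (hlim.eventually (gt_mem_nhds (by norm_num : (0:ℝ) < 1 / 2)))
  refine ⟨max A1 3, lt_of_lt_of_le (by norm_num) (le_max_right _ _), ?_⟩
  intro A hA V hsep hV
  have hA3 : 3 ≤ A := le_trans (le_max_right _ _) hA
  have hθ := hA1 A (le_trans (le_max_left _ _) hA)
  set θ : ℝ := 25 ^ s * A ^ (-(s - s')) * C with hθdef
  have hθ0 : 0 < θ := by positivity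
  -- bound with separation
  have hsumA : ∀ (v0 : V) (x : Fin 4 → ℝ), H x → B x v0 = 0 →
      (∑' v1 : V, if some v1 ≠ some v0 then
      ∑' c : cellsOf (v1 : Fin 4 → ℝ), ENNReal.ofReal (25 ^ s) *
        (ENNReal.ofReal ((-B x (rep v1 c)) ^ (-s)) * ENNReal.ofReal (ht (rep v1 c))) else 0) ≤
        ENNReal.ofReal (θ * ht x) := by
    intro v0 x hx hxv
    obtain ⟨b, hb1, hb2⟩ := hschur x hx
    calc (∑' v1 : V, if some v1 ≠ some v0 then
        ∑' c : cellsOf (v1 : Fin 4 → ℝ), ENNReal.ofReal (25 ^ s) *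
        (ENNReal.ofReal ((-B x (rep v1 c)) ^ (-s)) * ENNReal.ofReal (ht (rep v1 c))) else 0)
        ≤ ∑' v1 : V, ∑' c : cellsOf (v1 : Fin 4 → ℝ), ENNReal.ofReal (25 ^ s * A ^ (-(s - s'))) * b c := by
          apply ENNReal.tsum_le_tsum
          intro v1
          split_ifs with hne
          · apply ENNReal.tsum_le_tsum
            intro c
            have hne' : (v0 : Fin 4 → ℝ) ≠ v1 := by
              intro h
              exact hne (by rw [Subtype.ext h])
            have hr := rep_H _ c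
            have hdist := plane_dist (by linarith) hx hr (hV _ v0.2).1 (hV _ v1.2).1
              (hsep _ v0.2 _ v1.2 hne') hxv (rep_B _ c)
            have hp := one_le_p hx hr
            have hht := ht_pos hr
            have h1 : (-B x (rep v1 c)) ^ (-s) ≤ A ^ (-(s - s')) * (-B x (rep v1 c)) ^ (-s') := by
              have : (-B x (rep v1 c)) ^ (-s) = (-B x (rep v1 c)) ^ (-(s - s')) *
                  (-B x (rep v1 c)) ^ (-s') := by
                rw [← Real.rpow_add (by linarith)]; congr 1; ring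
              rw [this]
              apply mul_le_mul_of_nonneg_right _ (by positivity)
              exact Real.rpow_le_rpow_of_nonpos (by linarith) hdist (by linarith)
            have h2 := hb1 _ hr
            rw [rep_cell] at h2
            refine le_trans ?_ (mul_le_mul_right h2 _)
            rw [← ENNReal.ofReal_mul (by positivity), ← ENNReal.ofReal_mul (by positivity),
              ← ENNReal.ofReal_mul (by positivity)]
            apply ENNReal.ofReal_le_ofReal
            calc 25 ^ s * ((-B x (rep v1 c)) ^ (-s) * ht (rep v1 c))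
                ≤ 25 ^ s * ((A ^ (-(s - s')) * (-B x (rep v1 c)) ^ (-s')) * ht (rep v1 c)) := by
                  gcongr
              _ = _ := by ring
          · exact zero_le
      _ = ENNReal.ofReal (25 ^ s * A ^ (-(s - s'))) * ∑' v1 : V, ∑' c : cellsOf (v1 : Fin 4 → ℝ), b c := by
          simp_rw [ENNReal.tsum_mul_left]
      _ ≤ ENNReal.ofReal (25 ^ s * A ^ (-(s - s'))) * ENNReal.ofReal (C * ht x) :=
          mul_le_mul' le_rfl ((sum_cells (by linarith) hsep hV b).trans hb2)
      _ = ENNReal.ofReal (θ * ht x) := by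
          rw [← ENNReal.ofReal_mul (by positivity)]
          congr 1; rw [hθdef]; ring
  -- induction
  have hind : ∀ n : ℕ, ∀ (v0 : V) (x : Fin 4 → ℝ), H x → B x v0 = 0 →
      T V s n (some v0) x ≤ ENNReal.ofReal (2 * θ ^ n) * ENNReal.ofReal (ht x) := by
    intro n
    induction n with
    | zero =>
      intro v0 x hx _
      have h1 : T V s 0 (some v0) x = ENNReal.ofReal ((-B x e) ^ (-s)) := by
        unfold T
        change ∑' w : PUnit, _ = _
        rw [tsum_fintype, Fintype.sum_unique]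
        exact if_pos trivial
      rw [h1, ← ENNReal.ofReal_mul (by positivity)]
      apply ENNReal.ofReal_le_ofReal
      have hp := one_le_p hx H_e
      have h2 : (-B x e) ^ (-s) ≤ (-B x e)⁻¹ := by
        rw [← Real.rpow_neg_one]
        exact Real.rpow_le_rpow_of_exponent_le hp (by linarith)
      have h3 := ht_inv_le hx
      simp only [pow_zero, mul_one]
      linarith
    | succ n ih =>
      intro v0 x hx hxv
      have hneg : ∀ v : V, some v ≠ some v0 → B x v ≤ 0 := by
        intro v hne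
        have hne' : (v0 : Fin 4 → ℝ) ≠ v := fun h => hne (by rw [Subtype.ext h])
        have h1 := hV _ v0.2
        have h2 := hV _ v.2
        have h3 := hsep _ v0.2 _ v.2 hne'
        exact (pingpong hx h1.1 h2.1 (by linarith [h1.2]) (by linarith [h2.2]) (by linarith)
          hxv.ge).le
      refine (T_succ_le (by linarith) hsep hV (by linarith) n (some v0) hx hneg).trans ?_
      have hstep : ∀ v1 : V, (if some v1 ≠ some v0 then
          ∑' c : cellsOf (v1 : Fin 4 → ℝ), ENNReal.ofReal (25 ^ s) *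
          (ENNReal.ofReal ((-B x (rep v1 c)) ^ (-s)) * T V s n (some v1) (rep v1 c)) else 0) ≤
          ENNReal.ofReal (2 * θ ^ n) * (if some v1 ≠ some v0 then
          ∑' c : cellsOf (v1 : Fin 4 → ℝ), ENNReal.ofReal (25 ^ s) *
          (ENNReal.ofReal ((-B x (rep v1 c)) ^ (-s)) * ENNReal.ofReal (ht (rep v1 c))) else 0) := by
        intro v1
        split_ifs with hne
        · rw [← ENNReal.tsum_mul_left]
          apply ENNReal.tsum_le_tsum
          intro c
          have h1 := ih v1 (rep v1 c) (rep_H _ c) (rep_B _ c)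
          calc ENNReal.ofReal (25 ^ s) *
              (ENNReal.ofReal ((-B x (rep v1 c)) ^ (-s)) * T V s n (some v1) (rep v1 c))
              ≤ ENNReal.ofReal (25 ^ s) * (ENNReal.ofReal ((-B x (rep v1 c)) ^ (-s)) *
                (ENNReal.ofReal (2 * θ ^ n) * ENNReal.ofReal (ht (rep v1 c)))) := by
                gcongr
            _ = _ := by ring
        · exact zero_le
      refine (ENNReal.tsum_le_tsum hstep).trans ?_
      rw [ENNReal.tsum_mul_left]
      refine (mul_le_mul_right (hsumA v0 x hx hxv) _).trans ?_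
      have := ht_pos hx
      rw [← ENNReal.ofReal_mul (by positivity), ← ENNReal.ofReal_mul (by positivity)]
      apply ENNReal.ofReal_le_ofReal
      apply le_of_eq
      ring
  -- the start
  have hstart : ∀ n : ℕ, T V s (n + 1) none e ≤ ENNReal.ofReal (2 * 25 ^ s * C) * ENNReal.ofReal (θ ^ n) := by
    intro n
    obtain ⟨b, hb1, hb2⟩ := hschur e H_e
    have hneg : ∀ v : V, some v ≠ none → B e v ≤ 0 := by
      intro v _
      rw [B_e_left]
      linarith [(hV v v.2).2]
    refine (T_succ_le (by linarith) hsep hV (by linarith) n none H_e hneg).trans ?_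
    have hstep : ∀ v1 : V, (if some v1 ≠ none then
          ∑' c : cellsOf (v1 : Fin 4 → ℝ), ENNReal.ofReal (25 ^ s) *
          (ENNReal.ofReal ((-B e (rep v1 c)) ^ (-s)) * T V s n (some v1) (rep v1 c)) else 0) ≤
          ENNReal.ofReal (25 ^ s * (2 * θ ^ n)) *
          ∑' c : cellsOf (v1 : Fin 4 → ℝ), b c := by
      intro v1
      rw [if_pos (by simp), ← ENNReal.tsum_mul_left]
      apply ENNReal.tsum_le_tsum
      intro c
      have hr := rep_H _ c
      have h1 := hind n v1 (rep v1 c) hr (rep_B _ c)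
      have hp := one_le_p H_e hr
      have hht := ht_pos hr
      have h2 := hb1 _ hr
      rw [rep_cell] at h2
      have h3 : (-B e (rep v1 c)) ^ (-s) ≤ (-B e (rep v1 c)) ^ (-s') :=
        Real.rpow_le_rpow_of_exponent_le hp (by linarith)
      calc ENNReal.ofReal (25 ^ s) *
              (ENNReal.ofReal ((-B e (rep v1 c)) ^ (-s)) * T V s n (some v1) (rep v1 c))
              ≤ ENNReal.ofReal (25 ^ s) * (ENNReal.ofReal ((-B e (rep v1 c)) ^ (-s')) *
                (ENNReal.ofReal (2 * θ ^ n) * ENNReal.ofReal (ht (rep v1 c)))) := by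
                gcongr
        _ = ENNReal.ofReal (25 ^ s * (2 * θ ^ n)) *
            ENNReal.ofReal ((-B e (rep v1 c)) ^ (-s') * ht (rep v1 c)) := by
              rw [ENNReal.ofReal_mul (p := (25:ℝ) ^ s) (by positivity),
                ENNReal.ofReal_mul (p := (-B e (rep v1 c)) ^ (-s')) (by positivity)]
              ring
        _ ≤ _ := mul_le_mul' le_rfl h2
    refine (ENNReal.tsum_le_tsum hstep).trans ?_
    rw [ENNReal.tsum_mul_left]
    refine (mul_le_mul_right ((sum_cells (by linarith) hsep hV b).trans hb2) _).trans ?_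
    have := ht_pos H_e
    rw [← ENNReal.ofReal_mul (by positivity), ← ENNReal.ofReal_mul (by positivity)]
    apply ENNReal.ofReal_le_ofReal
    apply le_of_eq
    have : ht e = 1 := by simp [ht]
    rw [this]; ring
  rw [tsum_eq_zero_add' ENNReal.summable]
  apply ENNReal.add_lt_top.mpr
  constructor
  · unfold T
    change ∑' w : PUnit, _ < _
    rw [tsum_fintype, Fintype.sum_unique]
    split_ifs
    · exact ENNReal.ofReal_lt_top
    · exact ENNReal.zero_lt_top
  · refine lt_of_le_of_lt (ENNReal.tsum_le_tsum hstart) ?_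
    rw [ENNReal.tsum_mul_left]
    apply ENNReal.mul_lt_top ENNReal.ofReal_lt_top
    rw [← ENNReal.ofReal_tsum_of_nonneg (fun n => by positivity)
      (summable_geometric_of_lt_one hθ0.le (by linarith))]
    exact ENNReal.ofReal_lt_top

end Pool.Agent.Helper97
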