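import Mathlib
import Pool.Agent.Helper97.Upper

set_option autoImplicit false

namespace Pool.Agent.Helper97

open scoped ENNReal
open Matrix

/-- the diagonal form -/
noncomputable def J : Matrix (Fin 4) (Fin 4) ℝ := Matrix.diagonal (![-1, 1, 1, 1] : Fin 4 → ℝ)

lemma B_eq (x y : Fin 4 → ℝ) : B x y = x ⬝ᵥ (J *ᵥ y) := by
  simp only [B, J, dotProduct, Matrix.mulVec_diagonal, Fin.sum_univ_four, Matrix.cons_val_zero,
    Matrix.cons_val_one, Matrix.cons_val]
  ring

/-- reflection matrix -/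
noncomputable def rM (v : Fin 4 → ℝ) : Matrix (Fin 4) (Fin 4) ℝ :=
  1 - (2 : ℝ) • Matrix.vecMulVec v (J *ᵥ v)

lemma rM_mulVec (v x : Fin 4 → ℝ) : rM v *ᵥ x = refl v x := by
  unfold rM refl
  rw [Matrix.sub_mulVec, Matrix.one_mulVec, Matrix.smul_mulVec, Matrix.vecMulVec_mulVec,
    B_comm, B_eq]
  have : (J *ᵥ v) ⬝ᵥ x = v ⬝ᵥ (J *ᵥ x) := by
    rw [← B_eq, dotProduct_comm, ← B_eq, B_comm]
  rw [this]
  ext i
  simp [mul_assoc, mul_comm, mul_left_comm]

lemma mat_ext {M N : Matrix (Fin 4) (Fin 4) ℝ} (h : ∀ x, M *ᵥ x = N *ᵥ x) : M = N := by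
  apply Matrix.toLin'.injective
  apply LinearMap.ext
  intro x
  simp only [Matrix.toLin'_apply]
  exact h x

lemma rM_mul_self {v : Fin 4 → ℝ} (hv : B v v = 1) : rM v * rM v = 1 := by
  apply mat_ext
  intro x
  rw [← Matrix.mulVec_mulVec, rM_mulVec, rM_mulVec, refl_refl hv, Matrix.one_mulVec]

noncomputable def rG (v : Fin 4 → ℝ) (hv : B v v = 1) : Matrix.GeneralLinearGroup (Fin 4) ℝ :=
  ⟨rM v, rM v, rM_mul_self hv, rM_mul_self hv⟩

lemma rG_mulVec {v : Fin 4 → ℝ} (hv : B v v = 1) (x : Fin 4 → ℝ) :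
    ((rG v hv : Matrix.GeneralLinearGroup (Fin 4) ℝ) : Matrix (Fin 4) (Fin 4) ℝ) *ᵥ x = refl v x :=
  rM_mulVec v x

lemma rG_inv {v : Fin 4 → ℝ} (hv : B v v = 1) : (rG v hv)⁻¹ = rG v hv := by
  apply Units.ext
  rfl

lemma GL_ext {g h : Matrix.GeneralLinearGroup (Fin 4) ℝ}
    (H : ∀ x, (g : Matrix (Fin 4) (Fin 4) ℝ) *ᵥ x = (h : Matrix (Fin 4) (Fin 4) ℝ) *ᵥ x) : g = h := by
  apply Units.ext
  exact mat_ext H

variable {V : Set (Fin 4 → ℝ)}

/-- the reflection group -/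
noncomputable def NG (V : Set (Fin 4 → ℝ)) (hV : ∀ v ∈ V, Cand v) :
    Subgroup (Matrix.GeneralLinearGroup (Fin 4) ℝ) :=
  Subgroup.closure (Set.range (fun v : V => rG v (hV v v.2).1))

lemma NG_pres (hV : ∀ v ∈ V, Cand v) (g : Matrix.GeneralLinearGroup (Fin 4) ℝ)
    (hg : g ∈ NG V hV) :
    (∀ x y, B ((g : Matrix (Fin 4) (Fin 4) ℝ) *ᵥ x) ((g : Matrix (Fin 4) (Fin 4) ℝ) *ᵥ y) = B x y) ∧
    (∀ x, H x → H ((g : Matrix (Fin 4) (Fin 4) ℝ) *ᵥ x)) := by
  unfold NG at hg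
  induction hg using Subgroup.closure_induction with
  | mem x hx =>
    obtain ⟨v, rfl⟩ := hx
    have hv := (hV v v.2).1
    constructor
    · intro x y
      simp only [rG_mulVec, B_refl_refl hv]
    · intro x hx
      rw [rG_mulVec]
      exact H_refl hv hx
  | one => simp
  | mul g h _ _ hg hh =>
    constructor
    · intro x y
      simp only [Units.val_mul, ← Matrix.mulVec_mulVec]
      rw [hg.1, hh.1]
    · intro x hx
      simp only [Units.val_mul, ← Matrix.mulVec_mulVec]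
      exact hg.2 _ (hh.2 _ hx)
  | inv g _ hg =>
    have hinv : ∀ x, (g : Matrix (Fin 4) (Fin 4) ℝ) *ᵥ
        (((g⁻¹ : Matrix.GeneralLinearGroup (Fin 4) ℝ) : Matrix (Fin 4) (Fin 4) ℝ) *ᵥ x) = x := by
      intro x
      rw [Matrix.mulVec_mulVec, ← Units.val_mul, mul_inv_cancel, Units.val_one, Matrix.one_mulVec]
    have h1 : ∀ x y, B (((g⁻¹ : Matrix.GeneralLinearGroup (Fin 4) ℝ) : Matrix (Fin 4) (Fin 4) ℝ) *ᵥ x)
        (((g⁻¹ : Matrix.GeneralLinearGroup (Fin 4) ℝ) : Matrix (Fin 4) (Fin 4) ℝ) *ᵥ y) = B x y := by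
      intro x y
      rw [← hg.1, hinv, hinv]
    refine ⟨h1, ?_⟩
    intro x hx
    apply H_of_neg H_e
    · rw [h1, hx.1]
    · rw [← hg.1, hinv]
      exact B_neg_of_H (hg.2 _ H_e) hx

/-- group element of a word -/
noncomputable def wG (hV : ∀ v ∈ V, Cand v) : (n : ℕ) → Wd V n → Matrix.GeneralLinearGroup (Fin 4) ℝ
  | 0, _ => 1
  | n + 1, w => rG w.1 (hV w.1 w.1.2).1 * wG hV n w.2

lemma wG_mulVec (hV : ∀ v ∈ V, Cand v) (n : ℕ) (w : Wd V n) (x : Fin 4 → ℝ) :
    ((wG hV n w : Matrix.GeneralLinearGroup (Fin 4) ℝ) : Matrix (Fin 4) (Fin 4) ℝ) *ᵥ x =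
      act n w x := by
  induction n with
  | zero => simp [wG, act]
  | succ n ih =>
    simp only [wG, act, Units.val_mul, ← Matrix.mulVec_mulVec, ih, rG_mulVec]

lemma wG_mem (hV : ∀ v ∈ V, Cand v) (n : ℕ) (w : Wd V n) : wG hV n w ∈ NG V hV := by
  induction n with
  | zero => exact one_mem _
  | succ n ih =>
    exact mul_mem (Subgroup.subset_closure ⟨w.1, rfl⟩) (ih w.2)

lemma Adm_none {n : ℕ} {v0 : Option V} {w : Wd V n} (h : Adm n v0 w) : Adm n none w := by
  cases n with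
  | zero => trivial
  | succ n => exact ⟨by simp, h.2⟩

lemma exists_word (hV : ∀ v ∈ V, Cand v) (g : Matrix.GeneralLinearGroup (Fin 4) ℝ)
    (hg : g ∈ NG V hV) : ∃ (n : ℕ) (w : Wd V n), Adm n none w ∧ wG hV n w = g := by
  have step : ∀ (v : V) (y : Matrix.GeneralLinearGroup (Fin 4) ℝ),
      (∃ (n : ℕ) (w : Wd V n), Adm n none w ∧ wG hV n w = y) →
      ∃ (n : ℕ) (w : Wd V n), Adm n none w ∧ wG hV n w = rG v (hV v v.2).1 * y := by
    rintro v y ⟨n, w, hw, rfl⟩
    cases n with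
    | zero =>
      exact ⟨1, (v, w), ⟨by simp, trivial⟩, rfl⟩
    | succ n =>
      by_cases hvw : v = w.1
      · refine ⟨n, w.2, Adm_none hw.2, ?_⟩
        subst hvw
        change _ = rG w.1 (hV w.1 w.1.2).1 * (rG w.1 (hV w.1 w.1.2).1 * wG hV n w.2)
        rw [← mul_assoc]
        nth_rewrite 1 [← rG_inv (hV w.1 w.1.2).1]
        rw [inv_mul_cancel, one_mul]
      · refine ⟨n + 2, (v, w), ⟨by simp, ⟨?_, hw.2⟩⟩, rfl⟩
        intro h
        exact hvw (Option.some_injective _ h).symm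
  unfold NG at hg
  induction hg using Subgroup.closure_induction_left with
  | one => exact ⟨0, PUnit.unit, trivial, rfl⟩
  | mul_left x hx y _ ih =>
    obtain ⟨v, rfl⟩ := hx
    exact step v y ih
  | inv_mul_cancel x hx y _ ih =>
    obtain ⟨v, rfl⟩ := hx
    simp only [rG_inv]
    exact step v y ih

lemma act_pos {A : ℝ} (hA : 1 < A) (hsep : Sep A V) (hV : ∀ v ∈ V, Cand v) (n : ℕ) (w : Wd V (n + 1))
    (hw : Adm (n + 1) none w) : 0 < B (act (n + 1) w e) w.1 := by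
  change 0 < B (refl w.1 (act n w.2 e)) w.1
  rw [B_refl_self (hV w.1 w.1.2).1]
  have := act_neg hA hsep hV n w.1 w.2 hw.2
  linarith

lemma word_inj {A : ℝ} (hA : 1 < A) (hsep : Sep A V) (hV : ∀ v ∈ V, Cand v) :
    ∀ (n : ℕ) (w : Wd V n) (m : ℕ) (w' : Wd V m), Adm n none w → Adm m none w' →
      act n w e = act m w' e → (⟨n, w⟩ : Σ n, Wd V n) = ⟨m, w'⟩ := by
  intro n
  induction n with
  | zero =>
    intro w m w' hw hw' h
    cases m with
    | zero => rfl
    | succ m =>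
      exfalso
      have h1 := act_pos hA hsep hV m w' hw'
      rw [← h] at h1
      change 0 < B e w'.1 at h1
      rw [B_e_left] at h1
      linarith [(hV w'.1 w'.1.2).2]
  | succ n ih =>
    intro w m w' hw hw' h
    cases m with
    | zero =>
      exfalso
      have h1 := act_pos hA hsep hV n w hw
      rw [h] at h1
      change 0 < B e w.1 at h1
      rw [B_e_left] at h1
      linarith [(hV w.1 w.1.2).2]
    | succ m =>
      have h1 := act_pos hA hsep hV n w hw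
      have h2 := act_pos hA hsep hV m w' hw'
      have hfirst : w.1 = w'.1 := by
        by_contra hne
        have hne' : (w.1 : Fin 4 → ℝ) ≠ w'.1 := fun h => hne (Subtype.ext h)
        have hc1 := hV w.1 w.1.2
        have hc2 := hV w'.1 w'.1.2
        have h3 := hsep _ w.1.2 _ w'.1.2 hne'
        have h4 := pingpong (H_act hV (n + 1) w H_e) hc1.1 hc2.1 (by linarith [hc1.2])
          (by linarith [hc2.2]) (by linarith) h1.le
        rw [h] at h4
        linarith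
      obtain ⟨v, u⟩ := w
      obtain ⟨v', u'⟩ := w'
      simp only at hfirst
      subst hfirst
      have h5 : act n u e = act m u' e := by
        have h6 : refl v (act n u e) = refl v (act m u' e) := h
        have h7 := congrArg (refl v) h6
        rwa [refl_refl (hV v v.2).1, refl_refl (hV v v.2).1] at h7
      have h8 := ih u m u' (Adm_none hw.2) (Adm_none hw'.2) h5
      have hnm : n = m := congrArg Sigma.fst h8
      subst hnm
      have huu : u = u' := by simpa using h8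
      subst huu
      rfl

/-- g₀₀ in terms of `B` -/
lemma g00 (g : Matrix.GeneralLinearGroup (Fin 4) ℝ) :
    (g : Matrix (Fin 4) (Fin 4) ℝ) 0 0 = -B e ((g : Matrix (Fin 4) (Fin 4) ℝ) *ᵥ e) := by
  rw [B_e_left, neg_neg]
  simp [Matrix.mulVec, dotProduct, Fin.sum_univ_four]

open Classical in
theorem sum_NG {A : ℝ} (hA : 1 < A) (hsep : Sep A V) (hV : ∀ v ∈ V, Cand v) (s : ℝ) :
    ∑' g : NG V hV, ENNReal.ofReal
      ((((g : Matrix.GeneralLinearGroup (Fin 4) ℝ) : Matrix (Fin 4) (Fin 4) ℝ) 0 0) ^ (-s)) =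
      ∑' n, T V s n none e := by
  let f : {p : Σ n, Wd V n | Adm p.1 none p.2} → NG V hV := fun p => ⟨wG hV p.1.1 p.1.2, wG_mem hV _ _⟩
  have hf : Function.Bijective f := by
    constructor
    · rintro ⟨⟨n, w⟩, hw⟩ ⟨⟨m, w'⟩, hw'⟩ h
      apply Subtype.ext
      apply word_inj hA hsep hV n w m w' hw hw'
      have h1 := congrArg Subtype.val h
      simp only [f] at h1
      rw [← wG_mulVec hV, ← wG_mulVec hV, h1]
    · rintro ⟨g, hg⟩
      obtain ⟨n, w, hw, rfl⟩ := exists_word hV g hg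
      exact ⟨⟨⟨n, w⟩, hw⟩, rfl⟩
  rw [← (Equiv.ofBijective f hf).tsum_eq]
  have h1 : ∀ p : {p : Σ n, Wd V n | Adm p.1 none p.2},
      ENNReal.ofReal (((((Equiv.ofBijective f hf) p : NG V hV) : Matrix.GeneralLinearGroup (Fin 4) ℝ) :
        Matrix (Fin 4) (Fin 4) ℝ) 0 0 ^ (-s)) =
      ENNReal.ofReal ((-B e (act p.1.1 p.1.2 e)) ^ (-s)) := by
    intro p
    rw [g00]
    simp only [Equiv.ofBijective_apply, f, wG_mulVec]
  simp_rw [h1]
  rw [tsum_subtype {p : Σ n, Wd V n | Adm p.1 none p.2}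
    (fun p => ENNReal.ofReal ((-B e (act p.1 p.2 e)) ^ (-s))), ENNReal.tsum_sigma']
  apply tsum_congr
  intro n
  unfold T
  apply tsum_congr
  intro w
  rw [Set.indicator_apply]
  exact if_congr Iff.rfl rfl rfl

end Pool.Agent.Helper97
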