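import Mathlib
import Pool.Agent.Helper97.Upper

set_option autoImplicit false

namespace Pool.Agent.Helper97

open scoped ENNReal

/-- outward normal of the hemisphere of radius 1/2 centred at `(a,b)` -/
noncomputable def vec (a b : ℝ) : Fin 4 → ℝ :=
  ![3 / 4 + (a ^ 2 + b ^ 2), 2 * a, 2 * b, (a ^ 2 + b ^ 2) - 5 / 4]

/-- its top point -/
noncomputable def top (a b : ℝ) : Fin 4 → ℝ :=
  ![5 / 4 + (a ^ 2 + b ^ 2), 2 * a, 2 * b, (a ^ 2 + b ^ 2) - 3 / 4]

lemma B_vec (a b c d : ℝ) : B (vec a b) (vec c d) = 1 - 2 * ((a - c) ^ 2 + (b - d) ^ 2) := by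
  simp only [B, vec, Matrix.cons_val_zero, Matrix.cons_val_one, Matrix.cons_val]
  ring

lemma B_top (a b c d : ℝ) : -B (top a b) (top c d) = 2 * ((a - c) ^ 2 + (b - d) ^ 2) + 1 := by
  simp only [B, top, Matrix.cons_val_zero, Matrix.cons_val_one, Matrix.cons_val]
  ring

lemma B_top_vec (a b : ℝ) : B (top a b) (vec a b) = 0 := by
  simp only [B, top, vec, Matrix.cons_val_zero, Matrix.cons_val_one, Matrix.cons_val]
  ring

lemma H_top (a b : ℝ) : H (top a b) := by
  constructor
  · have := B_top a b a b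
    simp only [sub_self] at this
    linarith
  · simp only [top, Matrix.cons_val_zero]
    positivity

lemma cand_vec (a b : ℝ) : Cand (vec a b) := by
  constructor
  · rw [B_vec]; ring
  · simp only [vec, Matrix.cons_val_zero]
    nlinarith [sq_nonneg a, sq_nonneg b]

lemma vec_inj {a b c d : ℝ} (h : vec a b = vec c d) : a = c ∧ b = d := by
  have h1 := congrFun h 1
  have h2 := congrFun h 2
  simp only [vec, Matrix.cons_val_one, Matrix.cons_val] at h1 h2
  constructor <;> linarith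

/-- the weight function -/
noncomputable def gw (L s : ℝ) (a b : ℤ) : ℝ := (2 * (2 * (L ^ 2 * ((a:ℝ) ^ 2 + (b:ℝ) ^ 2)) + 1)) ^ (-s)

lemma exists_M (L : ℝ) : ∃ M : ℕ, 1 < ∑ a ∈ Finset.Icc 1 M, ∑ b ∈ Finset.Icc 1 M, gw L 1 a b := by
  have hdiv : Filter.Tendsto (fun n : ℕ => ∑ a ∈ Finset.range n, (1:ℝ) / (a + 1)) Filter.atTop
      Filter.atTop := Real.tendsto_sum_range_one_div_nat_succ_atTop
  obtain ⟨M, hM⟩ := (hdiv.eventually_gt_atTop (8 * L ^ 2 + 2)).exists
  refine ⟨M, ?_⟩
  have hpos : 0 < 8 * L ^ 2 + 2 := by positivity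
  have h1 : ∀ a ∈ Finset.Icc 1 M, (1 / (8 * L ^ 2 + 2)) * (1 / (a:ℝ)) ≤
      ∑ b ∈ Finset.Icc 1 M, gw L 1 a b := by
    intro a ha
    rw [Finset.mem_Icc] at ha
    have ha1 : (1:ℝ) ≤ a := by exact_mod_cast ha.1
    calc (1 / (8 * L ^ 2 + 2)) * (1 / (a:ℝ)) = ∑ b ∈ Finset.Icc 1 a, 1 / ((8 * L ^ 2 + 2) * (a:ℝ) ^ 2) := by
          rw [Finset.sum_const, Nat.card_Icc]
          simp only [Nat.add_sub_cancel, nsmul_eq_mul]
          field_simp
      _ ≤ ∑ b ∈ Finset.Icc 1 a, gw L 1 a b := by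
          apply Finset.sum_le_sum
          intro b hb
          rw [Finset.mem_Icc] at hb
          have hb1 : (1:ℝ) ≤ b := by exact_mod_cast hb.1
          have hb2 : (b:ℝ) ≤ a := by exact_mod_cast hb.2
          unfold gw
          rw [Real.rpow_neg_one, one_div]
          apply inv_anti₀
          · positivity
          · push_cast
            have h3 : (b:ℝ) ^ 2 ≤ (a:ℝ) ^ 2 := by nlinarith
            have h4 : 0 ≤ L ^ 2 := sq_nonneg L
            have h5 : L ^ 2 * (b:ℝ) ^ 2 ≤ L ^ 2 * (a:ℝ) ^ 2 := mul_le_mul_of_nonneg_left h3 h4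
            nlinarith
      _ ≤ _ := by
          apply Finset.sum_le_sum_of_subset_of_nonneg
          · exact Finset.Icc_subset_Icc_right ha.2
          · intro b _ _
            unfold gw
            positivity
  calc (1:ℝ) = (1 / (8 * L ^ 2 + 2)) * (8 * L ^ 2 + 2) := by field_simp
    _ < (1 / (8 * L ^ 2 + 2)) * ∑ a ∈ Finset.range M, (1:ℝ) / (a + 1) := by
        apply mul_lt_mul_of_pos_left hM (by positivity)
    _ = ∑ a ∈ Finset.Icc 1 M, (1 / (8 * L ^ 2 + 2)) * (1 / (a:ℝ)) := by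
        rw [← Finset.mul_sum]
        congr 1
        apply Finset.sum_nbij' (fun a => a + 1) (fun a => a - 1)
        · intro a ha; simp only [Finset.mem_range, Finset.mem_Icc] at *; omega
        · intro a ha; simp only [Finset.mem_range, Finset.mem_Icc] at *; omega
        · intro a ha; simp
        · intro a ha; simp only [Finset.mem_Icc] at ha; omega
        · intro a ha; push_cast; rfl
    _ ≤ _ := Finset.sum_le_sum h1

lemma exists_s0 (L : ℝ) : ∃ M : ℕ, ∃ s0 : ℝ, 1 < s0 ∧
    1 ≤ ∑ a ∈ Finset.Icc 1 M, ∑ b ∈ Finset.Icc 1 M, gw L s0 a b := by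
  obtain ⟨M, hM⟩ := exists_M L
  refine ⟨M, ?_⟩
  have hcont : Continuous (fun s : ℝ => ∑ a ∈ Finset.Icc 1 M, ∑ b ∈ Finset.Icc 1 M, gw L s a b) := by
    apply continuous_finsetSum
    intro a _
    apply continuous_finsetSum
    intro b _
    unfold gw
    apply Continuous.rpow continuous_const continuous_neg
    intro s
    left
    positivity
  have h1 : ∀ᶠ s in nhds (1:ℝ), 1 < ∑ a ∈ Finset.Icc 1 M, ∑ b ∈ Finset.Icc 1 M, gw L s a b :=
    hcont.continuousAt.eventually (lt_mem_nhds hM)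
  have h2 : ∀ᶠ s in nhdsWithin (1:ℝ) (Set.Ioi 1), 1 < ∑ a ∈ Finset.Icc 1 M, ∑ b ∈ Finset.Icc 1 M, gw L s a b :=
    nhdsWithin_le_nhds h1
  have h3 : ∀ᶠ s in nhdsWithin (1:ℝ) (Set.Ioi 1), s ∈ Set.Ioi (1:ℝ) := self_mem_nhdsWithin
  obtain ⟨s, hs1, hs2⟩ := (h2.and h3).exists
  exact ⟨s, hs2, hs1.le⟩

/-- index box -/
noncomputable def box (M : ℕ) : Finset (ℤ × ℤ) := Finset.Ico (0:ℤ) (2 * M) ×ˢ Finset.Ico (0:ℤ) (2 * M)

lemma row_sum {L s0 : ℝ} {M : ℕ}
    (h : 1 ≤ ∑ a ∈ Finset.Icc 1 M, ∑ b ∈ Finset.Icc 1 M, gw L s0 a b) (i : ℤ × ℤ) (hi : i ∈ box M) :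
    1 ≤ ∑ j ∈ (box M).erase i, gw L s0 (i.1 - j.1) (i.2 - j.2) := by
  set ε1 : ℤ := if i.1 < M then 1 else -1 with hε1
  set ε2 : ℤ := if i.2 < M then 1 else -1 with hε2
  have e1 : ε1 = 1 ∨ ε1 = -1 := by rw [hε1]; split_ifs <;> simp
  have e2 : ε2 = 1 ∨ ε2 = -1 := by rw [hε2]; split_ifs <;> simp
  rw [← Finset.sum_product'] at h
  refine h.trans ?_
  have himg : (Finset.Icc 1 M ×ˢ Finset.Icc 1 M).image
      (fun p : ℕ × ℕ => ((i.1 + ε1 * p.1, i.2 + ε2 * p.2) : ℤ × ℤ)) ⊆ (box M).erase i := by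
    intro j hj
    simp only [Finset.mem_image, Finset.mem_product, Finset.mem_Icc] at hj
    obtain ⟨p, ⟨⟨h1, h2⟩, h3, h4⟩, rfl⟩ := hj
    simp only [box, Finset.mem_product, Finset.mem_Ico, Finset.mem_erase] at hi ⊢
    obtain ⟨⟨h5, h6⟩, h7, h8⟩ := hi
    refine ⟨?_, ⟨?_, ?_⟩, ?_, ?_⟩
    · intro heq
      have := congrArg Prod.fst heq
      simp only at this
      rcases e1 with e | e <;> rw [e] at this <;> omega
    all_goals
      simp only [hε1, hε2]
      split_ifs <;> omega
  calc ∑ x ∈ Finset.Icc 1 M ×ˢ Finset.Icc 1 M, gw L s0 x.1 x.2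
      = ∑ j ∈ ((Finset.Icc 1 M ×ˢ Finset.Icc 1 M).image
      (fun p : ℕ × ℕ => ((i.1 + ε1 * p.1, i.2 + ε2 * p.2) : ℤ × ℤ))),
        gw L s0 (i.1 - j.1) (i.2 - j.2) := by
        rw [Finset.sum_image]
        · apply Finset.sum_congr rfl
          intro p _
          unfold gw
          congr 6
          · push_cast
            rcases e1 with e | e <;> rw [e] <;> push_cast <;> ring
          · push_cast
            rcases e2 with e | e <;> rw [e] <;> push_cast <;> ring
        · intro p _ q _ hpq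
          simp only [Prod.mk.injEq] at hpq
          obtain ⟨h1, h2⟩ := hpq
          apply Prod.ext
          · rcases e1 with e | e <;> rw [e] at h1 <;> omega
          · rcases e2 with e | e <;> rw [e] at h2 <;> omega
    _ ≤ _ := by
        apply Finset.sum_le_sum_of_subset_of_nonneg himg
        intro j _ _
        unfold gw
        positivity

variable {V : Set (Fin 4 → ℝ)}

open Classical in
lemma T_succ_eq (s : ℝ) (n : ℕ) (v0 : Option V) (x : Fin 4 → ℝ) :
    T V s (n + 1) v0 x = ∑' v1 : V, ∑' w : Wd V n,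
      if (some v1 ≠ v0 ∧ Adm n (some v1) w) then
        ENNReal.ofReal ((-B x (refl v1 (act n w e))) ^ (-s)) else 0 := by
  unfold T
  change ∑' w : V × Wd V n, _ = _
  rw [ENNReal.tsum_prod']
  apply tsum_congr
  intro v1
  apply tsum_congr
  intro w
  exact if_congr Iff.rfl rfl rfl

open Classical in
lemma T_succ_ge {ι : Type} (hV : ∀ v ∈ V, Cand v) {s : ℝ} (hs : 0 < s) (n : ℕ) (v0 : Option V)
    {x : Fin 4 → ℝ} (hx : H x) (J : Finset ι) (v : ι → V) (hinj : Set.InjOn v J)
    (hne : ∀ j ∈ J, some (v j) ≠ v0) (y : ι → Fin 4 → ℝ) (hy : ∀ j ∈ J, H (y j))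
    (hyv : ∀ j ∈ J, B (y j) (v j) = 0) :
    ∑ j ∈ J, ENNReal.ofReal ((2 * (-B x (y j))) ^ (-s)) * T V s n (some (v j)) (y j) ≤
      T V s (n + 1) v0 x := by
  rw [T_succ_eq]
  calc ∑ j ∈ J, ENNReal.ofReal ((2 * (-B x (y j))) ^ (-s)) * T V s n (some (v j)) (y j)
      ≤ ∑ j ∈ J, ∑' w : Wd V n,
      (if (some (v j) ≠ v0 ∧ Adm n (some (v j)) w) then
        ENNReal.ofReal ((-B x (refl (v j) (act n w e))) ^ (-s)) else 0) := by
        apply Finset.sum_le_sum
        intro j hj
        unfold T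
        rw [← ENNReal.tsum_mul_left]
        apply ENNReal.tsum_le_tsum
        intro w
        by_cases hadm : Adm n (some (v j)) w
        · rw [if_pos hadm, if_pos ⟨hne j hj, hadm⟩]
          have hz := H_act hV n w H_e
          have hvj := hV _ (v j).2
          have h1 := one_le_p hx (hy j hj)
          have h2 := one_le_p (hy j hj) hz
          have h3 := one_le_p hx (H_refl hvj.1 hz)
          rw [← ENNReal.ofReal_mul (by positivity)]
          apply ENNReal.ofReal_le_ofReal
          rw [← Real.mul_rpow (by linarith) (by linarith)]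
          apply Real.rpow_le_rpow_of_nonpos (by linarith) _ (by linarith)
          have h4 := p_submul hx (hy j hj) (H_refl hvj.1 hz)
          have h5 : B (y j) (refl (v j) (act n w e)) = B (y j) (act n w e) := by
            rw [← B_refl_left hvj.1, refl_fix (hyv j hj)]
          rw [h5] at h4
          exact h4
        · rw [if_neg hadm]
          simp
    _ = ∑ v1 ∈ J.image v, ∑' w : Wd V n,
      (if (some v1 ≠ v0 ∧ Adm n (some v1) w) then
        ENNReal.ofReal ((-B x (refl v1 (act n w e))) ^ (-s)) else 0) := by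
        rw [Finset.sum_image hinj]
    _ ≤ _ := ENNReal.sum_le_tsum _

theorem lower_T (hV : ∀ v ∈ V, Cand v) {L s0 : ℝ} {M : ℕ} (hL : 0 < L) (hs0 : 1 < s0)
    (hrow : 1 ≤ ∑ a ∈ Finset.Icc 1 M, ∑ b ∈ Finset.Icc 1 M, gw L s0 a b)
    (hsub : ∀ i ∈ box M, vec (L * i.1) (L * i.2) ∈ V) :
    ∑' n, T V s0 n none e = ⊤ := by
  classical
  have hM : 0 < M := by
    rcases Nat.eq_zero_or_pos M with h | h
    · subst h; simp at hrow; linarith
    · exact h
  have hbox : ((0:ℤ), (0:ℤ)) ∈ box M := by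
    simp only [box, Finset.mem_product, Finset.mem_Ico]; omega
  -- kappa
  obtain ⟨κ, hκ0, hκ⟩ : ∃ κ : ℝ, 0 < κ ∧ ∀ i ∈ box M,
      κ ≤ (-B (top (L * i.1) (L * i.2)) e) ^ (-s0) := by
    obtain ⟨i, hi, hmin⟩ := Finset.exists_min_image (box M)
      (fun i => (-B (top (L * i.1) (L * i.2)) e) ^ (-s0)) ⟨_, hbox⟩
    refine ⟨_, ?_, hmin⟩
    have := one_le_p (H_top (L * i.1) (L * i.2)) H_e
    positivity
  let v : {i // i ∈ box M} → V := fun i => ⟨vec (L * i.1.1) (L * i.1.2), hsub i.1 i.2⟩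
  have hvinj : Function.Injective v := by
    intro i j h
    have h1 := congrArg Subtype.val h
    obtain ⟨h2, h3⟩ := vec_inj h1
    apply Subtype.ext
    apply Prod.ext
    · exact_mod_cast mul_left_cancel₀ hL.ne' h2
    · exact_mod_cast mul_left_cancel₀ hL.ne' h3
  have hind : ∀ n : ℕ, ∀ i : {i // i ∈ box M},
      ENNReal.ofReal κ ≤ T V s0 n (some (v i)) (top (L * i.1.1) (L * i.1.2)) := by
    intro n
    induction n with
    | zero =>
      intro i
      have h1 : T V s0 0 (some (v i)) (top (L * i.1.1) (L * i.1.2)) =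
          ENNReal.ofReal ((-B (top (L * i.1.1) (L * i.1.2)) e) ^ (-s0)) := by
        unfold T
        change ∑' w : PUnit, _ = _
        rw [tsum_fintype, Fintype.sum_unique]
        exact if_pos trivial
      rw [h1]
      exact ENNReal.ofReal_le_ofReal (hκ i.1 i.2)
    | succ n ih =>
      intro i
      have h1 := T_succ_ge hV (by linarith : 0 < s0) n (some (v i)) (H_top (L * i.1.1) (L * i.1.2))
        (Finset.univ.erase i) v hvinj.injOn
        (by
          intro j hj h
          rw [Finset.mem_erase] at hj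
          exact hj.1 (hvinj (Option.some_injective _ h)))
        (fun j => top (L * j.1.1) (L * j.1.2)) (fun j _ => H_top _ _) (fun j _ => B_top_vec _ _)
      refine le_trans ?_ h1
      calc ENNReal.ofReal κ = ENNReal.ofReal 1 * ENNReal.ofReal κ := by simp
        _ ≤ ENNReal.ofReal (∑ j ∈ (box M).erase i.1, gw L s0 (i.1.1 - j.1) (i.1.2 - j.2)) *
            ENNReal.ofReal κ := by
            gcongr
            exact row_sum hrow i.1 i.2
        _ = ∑ j ∈ (Finset.univ : Finset {i // i ∈ box M}).erase i,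
            ENNReal.ofReal (gw L s0 (i.1.1 - j.1.1) (i.1.2 - j.1.2)) * ENNReal.ofReal κ := by
            rw [ENNReal.ofReal_sum_of_nonneg (fun j _ => by unfold gw; positivity), ← Finset.sum_mul]
            congr 1
            symm
            apply Finset.sum_bij (fun j _ => j.1)
            · intro j hj
              rw [Finset.mem_erase] at hj ⊢
              exact ⟨fun h => hj.1 (Subtype.ext h), j.2⟩
            · intro j _ k _ h; exact Subtype.ext h
            · intro j hj
              rw [Finset.mem_erase] at hj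
              refine ⟨⟨j, hj.2⟩, ?_, rfl⟩
              rw [Finset.mem_erase]
              exact ⟨fun h => hj.1 (congrArg Subtype.val h), Finset.mem_univ _⟩
            · intro j _; rfl
        _ ≤ _ := by
            apply Finset.sum_le_sum
            intro j _
            refine mul_le_mul' ?_ (ih j)
            apply ENNReal.ofReal_le_ofReal
            apply le_of_eq
            unfold gw
            rw [B_top]
            congr 1
            push_cast
            ring
  have hlast : ∀ n : ℕ, ENNReal.ofReal ((2 * (-B e (top (L * (0:ℤ)) (L * (0:ℤ))))) ^ (-s0)) *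
      ENNReal.ofReal κ ≤ T V s0 (n + 1) none e := by
    intro n
    have h1 := T_succ_ge hV (by linarith : 0 < s0) n none H_e
        ({⟨((0:ℤ), (0:ℤ)), hbox⟩} : Finset {i // i ∈ box M}) v hvinj.injOn
        (by intro j _; simp)
        (fun j => top (L * j.1.1) (L * j.1.2)) (fun j _ => H_top _ _) (fun j _ => B_top_vec _ _)
    rw [Finset.sum_singleton] at h1
    exact le_trans (mul_le_mul' le_rfl (hind n _)) h1
  have hpos : ENNReal.ofReal ((2 * (-B e (top (L * (0:ℤ)) (L * (0:ℤ))))) ^ (-s0)) *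
      ENNReal.ofReal κ ≠ 0 := by
    have := one_le_p H_e (H_top (L * (0:ℤ)) (L * (0:ℤ)))
    apply mul_ne_zero
    · rw [Ne, ENNReal.ofReal_eq_zero, not_le]
      positivity
    · rw [Ne, ENNReal.ofReal_eq_zero, not_le]
      exact hκ0
  rw [tsum_eq_zero_add' ENNReal.summable, ENNReal.add_eq_top]
  right
  rw [eq_top_iff, ← ENNReal.tsum_const_eq_top_of_ne_zero (α := ℕ) hpos]
  exact ENNReal.tsum_le_tsum hlast

end Pool.Agent.Helper97
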