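import Mathlib
import Pool.Agent.Helper97.Grp
import Pool.Agent.Helper97.Lower

set_option autoImplicit false

namespace Pool.Agent.Helper97

open scoped ENNReal
open Matrix

variable {V : Set (Fin 4 → ℝ)}

lemma NG_matrix (hV : ∀ v ∈ V, Cand v) (g : Matrix.GeneralLinearGroup (Fin 4) ℝ)
    (hg : g ∈ NG V hV) :
    ((g : Matrix (Fin 4) (Fin 4) ℝ)ᵀ * J * (g : Matrix (Fin 4) (Fin 4) ℝ) = J) ∧
    0 < (g : Matrix (Fin 4) (Fin 4) ℝ) 0 0 := by
  obtain ⟨h1, h2⟩ := NG_pres hV g hg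
  constructor
  · apply Matrix.ext_of_mulVec_single
    intro j
    apply dotProduct_eq
    intro u
    rw [dotProduct_comm _ u, dotProduct_comm _ u]
    rw [← Matrix.mulVec_mulVec, ← Matrix.mulVec_mulVec, Matrix.dotProduct_mulVec, Matrix.vecMul_transpose,
      ← B_eq, h1, B_eq]
  · have h3 := (h2 e H_e).2
    have h4 := g00 g
    rw [h4, B_e_left]
    simpa using h3

lemma one_le_g00 (hV : ∀ v ∈ V, Cand v) (g : Matrix.GeneralLinearGroup (Fin 4) ℝ)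
    (hg : g ∈ NG V hV) : 1 ≤ (g : Matrix (Fin 4) (Fin 4) ℝ) 0 0 := by
  rw [g00]
  exact one_le_p H_e ((NG_pres hV g hg).2 e H_e)

lemma summable_iff (hV : ∀ v ∈ V, Cand v) (s : ℝ) :
    Summable (fun g : NG V hV =>
      (((g : Matrix.GeneralLinearGroup (Fin 4) ℝ) : Matrix (Fin 4) (Fin 4) ℝ) 0 0) ^ (-s)) ↔
    ∑' g : NG V hV, ENNReal.ofReal
      ((((g : Matrix.GeneralLinearGroup (Fin 4) ℝ) : Matrix (Fin 4) (Fin 4) ℝ) 0 0) ^ (-s)) ≠ ⊤ := by
  have hnn : ∀ g : NG V hV, 0 ≤ (((g : Matrix.GeneralLinearGroup (Fin 4) ℝ) :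
      Matrix (Fin 4) (Fin 4) ℝ) 0 0) ^ (-s) := by
    intro g
    have := one_le_g00 hV g g.2
    positivity
  constructor
  · intro h
    exact h.tsum_ofReal_ne_top
  · intro h
    have h1 := ENNReal.summable_toReal h
    apply h1.congr
    intro g
    rw [ENNReal.toReal_ofReal (hnn g)]

lemma discrete_of_summable (hV : ∀ v ∈ V, Cand v) {s : ℝ} (hs : 0 < s)
    (hsum : Summable (fun g : NG V hV =>
      (((g : Matrix.GeneralLinearGroup (Fin 4) ℝ) : Matrix (Fin 4) (Fin 4) ℝ) 0 0) ^ (-s))) :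
    DiscreteTopology (NG V hV) := by
  have hfin : {g : NG V hV | (((g : Matrix.GeneralLinearGroup (Fin 4) ℝ) :
      Matrix (Fin 4) (Fin 4) ℝ) 0 0) < 2}.Finite := by
    have h1 := hsum.tendsto_cofinite_zero
    have h2 : ∀ᶠ g : NG V hV in Filter.cofinite, (((g : Matrix.GeneralLinearGroup (Fin 4) ℝ) :
      Matrix (Fin 4) (Fin 4) ℝ) 0 0) ^ (-s) < 2 ^ (-s) :=
      h1.eventually (gt_mem_nhds (by positivity))
    rw [Filter.eventually_cofinite] at h2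
    apply h2.subset
    intro g hg
    simp only [Set.mem_setOf_eq, not_lt] at hg ⊢
    apply Real.rpow_le_rpow_of_nonpos
    · linarith [one_le_g00 hV g g.2]
    · exact hg.le
    · linarith
  have hcont : Continuous (fun g : NG V hV => (((g : Matrix.GeneralLinearGroup (Fin 4) ℝ) :
      Matrix (Fin 4) (Fin 4) ℝ) 0 0)) := by
    have h1 : Continuous (fun g : Matrix.GeneralLinearGroup (Fin 4) ℝ =>
        (g : Matrix (Fin 4) (Fin 4) ℝ) 0 0) :=
      (Units.continuous_val.matrix_elem 0 0)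
    exact h1.comp continuous_subtype_val
  apply discreteTopology_of_isOpen_singleton_one
  have hopen : IsOpen {g : NG V hV | (((g : Matrix.GeneralLinearGroup (Fin 4) ℝ) :
      Matrix (Fin 4) (Fin 4) ℝ) 0 0) < 2} := isOpen_lt hcont continuous_const
  have hclosed : IsClosed ({g : NG V hV | (((g : Matrix.GeneralLinearGroup (Fin 4) ℝ) :
      Matrix (Fin 4) (Fin 4) ℝ) 0 0) < 2} \ {1}) := (hfin.subset Set.diff_subset).isClosed
  have heq : ({1} : Set (NG V hV)) = {g : NG V hV | (((g : Matrix.GeneralLinearGroup (Fin 4) ℝ) :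
      Matrix (Fin 4) (Fin 4) ℝ) 0 0) < 2} \ ({g : NG V hV | (((g : Matrix.GeneralLinearGroup (Fin 4) ℝ) :
      Matrix (Fin 4) (Fin 4) ℝ) 0 0) < 2} \ {1}) := by
    rw [Set.diff_diff_cancel_left]
    intro g hg
    rw [Set.mem_singleton_iff] at hg
    subst hg
    simp
  rw [heq]
  exact hopen.sdiff hclosed

lemma inj_radius {A lam : ℝ} (hA : 1 < A) (hlam : 0 < lam) (hV : ∀ v ∈ V, Cand v)
    (hg : ∀ u, Cand u → ∃ v ∈ V, v 0 ≤ lam * u 0 ∧ -A < B u v) :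
    ∃ R : ℝ, ∀ x, H x → ∃ g ∈ NG V hV, g ≠ 1 ∧ -B x ((g : Matrix (Fin 4) (Fin 4) ℝ) *ᵥ x) ≤ R := by
  obtain ⟨R, hR⟩ := coarse hA hlam hV hg
  refine ⟨1 + 2 * R ^ 2, ?_⟩
  intro x hx
  set I : Set ℝ := {r | ∃ g ∈ NG V hV, r = -B e ((g : Matrix (Fin 4) (Fin 4) ℝ) *ᵥ x)} with hI
  have hIne : I.Nonempty := ⟨_, 1, one_mem _, rfl⟩
  have hIbdd : BddBelow I := by
    refine ⟨1, ?_⟩
    rintro r ⟨g, hg, rfl⟩
    exact one_le_p H_e ((NG_pres hV g hg).2 x hx)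
  obtain ⟨r, ⟨g, hgN, rfl⟩, hr⟩ := exists_lt_of_csInf_lt hIne (lt_add_one (sInf I))
  set y := (g : Matrix (Fin 4) (Fin 4) ℝ) *ᵥ x with hy
  have hyH : H y := (NG_pres hV g hgN).2 x hx
  have hyv : ∀ v ∈ V, B y v ≤ 1 / (2 * v 0) := by
    intro v hv
    have hvc := hV v hv
    have hmem : rG v (hV v hv).1 * g ∈ NG V hV :=
      mul_mem (Subgroup.subset_closure ⟨⟨v, hv⟩, rfl⟩) hgN
    have h1 : sInf I ≤ -B e (refl v y) := by
      apply csInf_le hIbdd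
      refine ⟨_, hmem, ?_⟩
      rw [Units.val_mul, ← Matrix.mulVec_mulVec, rG_mulVec]
    have h2 : -B e (refl v y) = -B e y - 2 * B y v * v 0 := by
      unfold refl
      rw [B_sub_right, B_smul_right, B_e_left v]; ring
    have hv0 : 0 < v 0 := by linarith [hvc.2]
    rw [le_div_iff₀ (by positivity)]
    nlinarith
  obtain ⟨v, hv, hvR⟩ := hR y hyH hyv
  have hvc := hV v hv
  refine ⟨g⁻¹ * rG v hvc.1 * g, ?_, ?_, ?_⟩
  · exact mul_mem (mul_mem (inv_mem hgN) (Subgroup.subset_closure ⟨⟨v, hv⟩, rfl⟩)) hgN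
  · intro h
    have h1 : rG v hvc.1 = 1 := by
      have : g⁻¹ * rG v hvc.1 * g = 1 := h
      calc rG v hvc.1 = g * (g⁻¹ * rG v hvc.1 * g) * g⁻¹ := by group
        _ = 1 := by rw [this]; group
    have h2 : refl v v = v := by
      rw [← rG_mulVec hvc.1, h1]; simp
    have h3 := B_refl_self hvc.1 v
    rw [h2, hvc.1] at h3
    norm_num at h3
  · have h1 : B x (((g⁻¹ * rG v hvc.1 * g : Matrix.GeneralLinearGroup (Fin 4) ℝ) :
        Matrix (Fin 4) (Fin 4) ℝ) *ᵥ x) = B y (refl v y) := by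
      rw [← (NG_pres hV g hgN).1 x]
      rw [Matrix.mulVec_mulVec, ← Units.val_mul]
      have : g * (g⁻¹ * rG v hvc.1 * g) = rG v hvc.1 * g := by group
      rw [this, Units.val_mul, ← Matrix.mulVec_mulVec, rG_mulVec]
    rw [h1, disp_refl hyH]
    have : (B y v) ^ 2 ≤ R ^ 2 := by
      apply sq_le_sq'
      · linarith [(abs_le.mp hvR).1]
      · exact (abs_le.mp hvR).2
    linarith

theorem key (ε : ℝ) (hε : 0 < ε) : ∃ V : Set (Fin 4 → ℝ), ∃ hV : ∀ v ∈ V, Cand v,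
    (∃ R : ℝ, ∀ x, H x → ∃ g ∈ NG V hV, g ≠ 1 ∧ -B x ((g : Matrix (Fin 4) (Fin 4) ℝ) *ᵥ x) ≤ R) ∧
    Summable (fun g : NG V hV =>
      (((g : Matrix.GeneralLinearGroup (Fin 4) ℝ) : Matrix (Fin 4) (Fin 4) ℝ) 0 0) ^ (-(1 + ε))) ∧
    ∃ s0 : ℝ, 1 < s0 ∧ ¬ Summable (fun g : NG V hV =>
      (((g : Matrix.GeneralLinearGroup (Fin 4) ℝ) : Matrix (Fin 4) (Fin 4) ℝ) 0 0) ^ (-s0)) := by
  obtain ⟨A, hA, hT⟩ := T_bound (s := 1 + ε) (s' := 1 + ε / 2) (by linarith) (by linarith)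
  set L := A + 1 with hL
  have hL0 : 0 < L := by linarith
  obtain ⟨M, s0, hs0, hrow⟩ := exists_s0 L
  let S : Set (Fin 4 → ℝ) := (fun i : ℤ × ℤ => vec (L * i.1) (L * i.2)) '' (box M : Set (ℤ × ℤ))
  have hSfin : S.Finite := (Finset.finite_toSet _).image _
  have hSep : Sep A S := by
    rintro _ ⟨i, hi, rfl⟩ _ ⟨j, hj, rfl⟩ hne
    have hij : i ≠ j := by
      rintro rfl
      exact hne rfl
    simp only [B_vec]
    have h1 : (1:ℝ) ≤ ((i.1:ℝ) - j.1) ^ 2 + ((i.2:ℝ) - j.2) ^ 2 := by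
      have h2 : (1:ℤ) ≤ (i.1 - j.1) ^ 2 + (i.2 - j.2) ^ 2 := by
        by_contra hc
        push Not at hc
        have h3 : (i.1 - j.1) ^ 2 + (i.2 - j.2) ^ 2 = 0 := by
          have := sq_nonneg (i.1 - j.1)
          have := sq_nonneg (i.2 - j.2)
          omega
        apply hij
        apply Prod.ext <;> nlinarith [sq_nonneg (i.1 - j.1), sq_nonneg (i.2 - j.2)]
      exact_mod_cast h2
    have h4 : (L * i.1 - L * j.1) ^ 2 + (L * i.2 - L * j.2) ^ 2 =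
        L ^ 2 * (((i.1:ℝ) - j.1) ^ 2 + ((i.2:ℝ) - j.2) ^ 2) := by ring
    rw [h4]
    have h5 : L ^ 2 ≤ L ^ 2 * (((i.1:ℝ) - j.1) ^ 2 + ((i.2:ℝ) - j.2) ^ 2) := by
      nlinarith [sq_nonneg L]
    nlinarith
  have hScand : ∀ v ∈ S, Cand v := by
    rintro _ ⟨i, _, rfl⟩
    exact cand_vec _ _
  obtain ⟨K, hK⟩ : ∃ K : ℝ, ∀ v ∈ S, v 0 ≤ K := by
    obtain ⟨K, hK⟩ := (hSfin.image (fun v : Fin 4 → ℝ => v 0)).bddAbove
    exact ⟨K, fun v hv => hK ⟨v, hv, rfl⟩⟩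
  obtain ⟨V, hSV, hVsep, hV, lam, hlam, hg⟩ := greedy (by linarith : 1 < A) hSep hScand K hK
  refine ⟨V, hV, inj_radius (by linarith) hlam hV hg, ?_, s0, hs0, ?_⟩
  · rw [summable_iff hV, sum_NG (by linarith : 1 < A) hVsep hV]
    exact (hT A le_rfl V hVsep hV).ne
  · rw [summable_iff hV, sum_NG (by linarith : 1 < A) hVsep hV, not_not]
    apply lower_T hV hL0 hs0 hrow
    intro i hi
    exact hSV ⟨i, hi, rfl⟩

end Pool.Agent.Helper97
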